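import Pool.Agent.Helper44.FP.Defs

namespace Pool.Agent.Helper44.FP

open scoped Topology

section Tr

variable {A : Type*} [CStarAlgebra A] {t : A → ℝ}

theorem IsTr.zero (ht : IsTr t) : t 0 = 0 := by
  have h := ht.smul 0 0
  simpa using h

theorem IsTr.neg (ht : IsTr t) (a : A) : t (-a) = - t a := by
  have h := ht.smul (-1) a
  simpa using h

theorem IsTr.sub (ht : IsTr t) (a b : A) : t (a - b) = t a - t b := by
  rw [sub_eq_add_neg, ht.add, ht.neg, sub_eq_add_neg]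

theorem IsTr.sum (ht : IsTr t) {ι : Type*} (s : Finset ι) (f : ι → A) :
    t (∑ i ∈ s, f i) = ∑ i ∈ s, t (f i) := by
  classical
  induction s using Finset.induction_on with
  | empty => simp [ht.zero]
  | insert a s ha ih => rw [Finset.sum_insert ha, Finset.sum_insert ha, ht.add, ih]

theorem IsTr.cyc (ht : IsTr t) (a b c : A) : t (a * b * c) = t (b * c * a) := by
  rw [mul_assoc, ht.comm]

theorem IsTr.unitary_conj (ht : IsTr t) {u : A} (hu : u ∈ unitary A) (a : A) :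
    t (u * a * star u) = t a := by
  rw [ht.comm, ← mul_assoc, Unitary.star_mul_self_of_mem hu, one_mul]

/-- Cauchy-Schwarz. -/
theorem IsTr.cs (ht : IsTr t) (a b : A) :
    t (star a * b) ^ 2 ≤ t (star a * a) * t (star b * b) := by
  have key : ∀ x : ℝ, 0 ≤ t (star a * a) * (x * x) + 2 * t (star a * b) * x + t (star b * b) := by
    intro x
    have h := ht.nonneg (x • a + b)
    have e : star (x • a + b) * (x • a + b)
        = (x * x) • (star a * a) + x • (star a * b) + x • (star b * a) + star b * b := by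
      simp only [star_add, star_smul, star_trivial, add_mul, mul_add, smul_mul_assoc,
        mul_smul_comm, smul_add, mul_smul]
      abel
    rw [e, ht.add, ht.add, ht.add, ht.smul, ht.smul, ht.smul] at h
    have e2 : t (star b * a) = t (star a * b) := by
      rw [← ht.star_eq (star b * a)]
      simp
    rw [e2] at h
    linarith
  have := discrim_le_zero key
  unfold discrim at this
  nlinarith

/-- the 2-norm -/
noncomputable def n2 (t : A → ℝ) (a : A) : ℝ := √(t (star a * a))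

theorem n2_nonneg (t : A → ℝ) (a : A) : 0 ≤ n2 t a := Real.sqrt_nonneg _

theorem IsTr.n2_sq (ht : IsTr t) (a : A) : n2 t a ^ 2 = t (star a * a) :=
  Real.sq_sqrt (ht.nonneg a)

theorem IsTr.abs_le_n2 (ht : IsTr t) (a b : A) : |t (star a * b)| ≤ n2 t a * n2 t b := by
  rw [← Real.sqrt_sq_eq_abs, n2, n2, ← Real.sqrt_mul (ht.nonneg a)]
  exact Real.sqrt_le_sqrt (ht.cs a b)

theorem IsTr.abs_mul_le (ht : IsTr t) (a b : A) : |t (a * b)| ≤ n2 t (star a) * n2 t b := by
  have := ht.abs_le_n2 (star a) b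
  simpa using this

theorem IsTr.n2_star (ht : IsTr t) (a : A) : n2 t (star a) = n2 t a := by
  rw [n2, n2, star_star, ht.comm]

theorem IsTr.n2_add_le (ht : IsTr t) (a b : A) : n2 t (a + b) ≤ n2 t a + n2 t b := by
  have h1 : n2 t (a + b) ^ 2 ≤ (n2 t a + n2 t b) ^ 2 := by
    have e : star (a + b) * (a + b) = star a * a + star a * b + star b * a + star b * b := by
      simp only [star_add, add_mul, mul_add]
      abel
    rw [ht.n2_sq, e, ht.add, ht.add, ht.add, ← ht.n2_sq a, ← ht.n2_sq b]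
    have h2 := (abs_le.mp (ht.abs_le_n2 a b)).2
    have h3 := (abs_le.mp (ht.abs_le_n2 b a)).2
    nlinarith
  exact le_of_sq_le_sq h1 (add_nonneg (n2_nonneg t a) (n2_nonneg t b))

theorem IsTr.n2_neg (ht : IsTr t) (a : A) : n2 t (-a) = n2 t a := by
  simp [n2]

theorem IsTr.n2_sub_le (ht : IsTr t) (a b : A) : n2 t (a - b) ≤ n2 t a + n2 t b := by
  rw [sub_eq_add_neg]
  refine (ht.n2_add_le a (-b)).trans ?_
  rw [ht.n2_neg]

theorem IsTr.n2_smul (ht : IsTr t) (r : ℝ) (a : A) : n2 t (r • a) = |r| * n2 t a := by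
  rw [n2, n2]
  have e : star (r • a) * (r • a) = (r ^ 2) • (star a * a) := by
    simp only [star_smul, star_trivial, smul_mul_assoc, mul_smul_comm, smul_smul]
    rw [sq]
  rw [e, ht.smul, Real.sqrt_mul (sq_nonneg r), Real.sqrt_sq_eq_abs]

theorem IsTr.n2_unitary_mul (_ht : IsTr t) {u : A} (hu : u ∈ unitary A) (a : A) :
    n2 t (u * a) = n2 t a := by
  rw [n2, n2]
  congr 2
  rw [star_mul, mul_assoc, ← mul_assoc (star u), Unitary.star_mul_self_of_mem hu, one_mul]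

theorem IsTr.n2_mul_unitary (ht : IsTr t) {u : A} (hu : u ∈ unitary A) (a : A) :
    n2 t (a * u) = n2 t a := by
  rw [← ht.n2_star, star_mul, ht.n2_unitary_mul (Unitary.star_mem hu), ht.n2_star]

end Tr

section Order

variable {A : Type*} [CStarAlgebra A] [PartialOrder A] [StarOrderedRing A] {t : A → ℝ}

theorem IsTr.pos_of_nonneg (ht : IsTr t) {a : A} (ha : 0 ≤ a) : 0 ≤ t a := by
  obtain ⟨b, rfl⟩ := CStarAlgebra.nonneg_iff_eq_star_mul_self.mp ha
  exact ht.nonneg b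

theorem IsTr.mono (ht : IsTr t) {a b : A} (h : a ≤ b) : t a ≤ t b := by
  have := ht.pos_of_nonneg (sub_nonneg.mpr h)
  rw [ht.sub] at this
  linarith

theorem IsTr.mul_pos (ht : IsTr t) {a b : A} (ha : 0 ≤ a) (hb : 0 ≤ b) : 0 ≤ t (a * b) := by
  obtain ⟨x, rfl⟩ := CStarAlgebra.nonneg_iff_eq_star_mul_self.mp ha
  have : t (star x * x * b) = t (x * b * star x) := by rw [ht.cyc]
  rw [this]
  have h2 := star_left_conjugate_nonneg hb (star x)
  rw [star_star] at h2
  exact ht.pos_of_nonneg h2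

theorem IsTr.algMap (ht : IsTr t) (r : ℝ) : t (algebraMap ℝ A r) = r := by
  rw [Algebra.algebraMap_eq_smul_one, ht.smul, ht.one, mul_one]

theorem IsTr.le_norm_sq (ht : IsTr t) (a : A) : t (star a * a) ≤ ‖a‖ ^ 2 := by
  have h := ht.mono (CStarAlgebra.star_mul_le_algebraMap_norm_sq (a := a))
  rwa [ht.algMap] at h

theorem IsTr.n2_le_norm (ht : IsTr t) (a : A) : n2 t a ≤ ‖a‖ := by
  rw [n2, ← Real.sqrt_sq (norm_nonneg a)]
  exact Real.sqrt_le_sqrt (ht.le_norm_sq a)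

theorem IsTr.n2_one (ht : IsTr t) : n2 t (1 : A) = 1 := by
  simp [n2, ht.one]

theorem IsTr.abs_le_n2' (ht : IsTr t) (a : A) : |t a| ≤ n2 t a := by
  have := ht.abs_le_n2 1 a
  simpa [ht.n2_one] using this

theorem IsTr.abs_le_norm (ht : IsTr t) (a : A) : |t a| ≤ ‖a‖ :=
  (ht.abs_le_n2' a).trans (ht.n2_le_norm a)

theorem IsTr.n2_mul_le (ht : IsTr t) (a b : A) : n2 t (a * b) ≤ ‖a‖ * n2 t b := by
  rw [n2, n2, ← Real.sqrt_sq (norm_nonneg a), ← Real.sqrt_mul (sq_nonneg _)]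
  apply Real.sqrt_le_sqrt
  rw [← ht.smul]
  apply ht.mono
  have h := star_left_conjugate_le_conjugate
    (CStarAlgebra.star_mul_le_algebraMap_norm_sq (a := a)) b
  have e1 : star b * (star a * a) * b = star (a * b) * (a * b) := by
    simp only [star_mul, mul_assoc]
  have e2 : star b * (algebraMap ℝ A (‖a‖ ^ 2)) * b = (‖a‖ ^ 2) • (star b * b) := by
    rw [Algebra.algebraMap_eq_smul_one]
    simp
  rwa [e1, e2] at h

theorem IsTr.n2_mul_le' (ht : IsTr t) (a b : A) : n2 t (a * b) ≤ n2 t a * ‖b‖ := by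
  rw [← ht.n2_star, star_mul]
  refine (ht.n2_mul_le _ _).trans ?_
  rw [norm_star, ht.n2_star, mul_comm]

end Order

section Hom

variable {A : Type*} [CStarAlgebra A] {X : Type*} [TopologicalSpace X] [CompactSpace X]

theorem hom_isSelfAdjoint (φ : C(X, ℝ) →⋆ₐ[ℝ] A) (f : C(X, ℝ)) : IsSelfAdjoint (φ f) := by
  have : IsSelfAdjoint f := by
    ext x
    simp
  exact this.map φ

theorem hom_comm (φ : C(X, ℝ) →⋆ₐ[ℝ] A) (f g : C(X, ℝ)) : φ f * φ g = φ g * φ f := by
  rw [← map_mul, ← map_mul, mul_comm]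

variable [PartialOrder A] [StarOrderedRing A]

theorem hom_nonneg (φ : C(X, ℝ) →⋆ₐ[ℝ] A) {f : C(X, ℝ)} (hf : 0 ≤ f) : 0 ≤ φ f := by
  have e : f = (⟨fun x => √(f x), by fun_prop⟩ : C(X, ℝ)) * ⟨fun x => √(f x), by fun_prop⟩ := by
    ext x
    simp only [ContinuousMap.mul_apply, ContinuousMap.coe_mk]
    exact (Real.mul_self_sqrt (hf x)).symm
  rw [e, map_mul]
  exact (hom_isSelfAdjoint φ _).mul_self_nonneg

theorem hom_mono (φ : C(X, ℝ) →⋆ₐ[ℝ] A) {f g : C(X, ℝ)} (h : f ≤ g) : φ f ≤ φ g := by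
  have := hom_nonneg φ (sub_nonneg.mpr h)
  rw [map_sub] at this
  exact sub_nonneg.mp this

theorem hom_le_one (φ : C(X, ℝ) →⋆ₐ[ℝ] A) {f : C(X, ℝ)} (h : f ≤ 1) : φ f ≤ 1 := by
  have := hom_mono φ h
  rwa [map_one] at this

theorem hom_norm_le (φ : C(X, ℝ) →⋆ₐ[ℝ] A) (f : C(X, ℝ)) {M : ℝ} (hM : 0 ≤ M)
    (h : ∀ x, |f x| ≤ M) : ‖φ f‖ ≤ M := by
  have h1 : f * f ≤ algebraMap ℝ C(X, ℝ) (M ^ 2) := by
    intro x
    change f x * f x ≤ M ^ 2
    nlinarith [h x, abs_nonneg (f x), abs_mul_abs_self (f x)]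
  have h2 := hom_mono φ h1
  rw [map_mul, AlgHomClass.commutes] at h2
  have h3 : ‖φ f * φ f‖ ≤ M ^ 2 := by
    have hn : 0 ≤ φ f * φ f := (hom_isSelfAdjoint φ f).mul_self_nonneg
    rw [CStarAlgebra.norm_le_iff_le_algebraMap _ (sq_nonneg M) hn]
    exact h2
  have h4 : ‖φ f‖ * ‖φ f‖ ≤ M ^ 2 := by
    rw [(hom_isSelfAdjoint φ f).norm_mul_self, sq] at h3
    exact h3
  nlinarith [norm_nonneg (φ f)]

theorem hom_norm_le' (φ : C(X, ℝ) →⋆ₐ[ℝ] A) (f : C(X, ℝ)) : ‖φ f‖ ≤ ‖f‖ :=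
  hom_norm_le φ f (norm_nonneg f) (fun x => by
    have := f.norm_coe_le_norm x
    rwa [Real.norm_eq_abs] at this)

end Hom

end Pool.Agent.Helper44.FP
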