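import Pool.Agent.Helper44.FP.Asmi

namespace Pool.Agent.Helper44.FP

open scoped Topology

universe u v

section

variable {A : Type u} [CStarAlgebra A] {I : Type} [Fintype I] [DecidableEq I]

/-- `T r a = ∑ s_{r k} a s_k*` -/
noncomputable def TT (s : I → A) (r : I → I) (a : A) : A := ∑ k, s (r k) * a * star (s k)

theorem TT_add (s : I → A) (r : I → I) (a b : A) : TT s r (a + b) = TT s r a + TT s r b := by
  unfold TT
  rw [← Finset.sum_add_distrib]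
  exact Finset.sum_congr rfl (fun k _ => by noncomm_ring)

theorem TT_neg (s : I → A) (r : I → I) (a : A) : TT s r (-a) = - TT s r a := by
  unfold TT
  rw [← Finset.sum_neg_distrib]
  exact Finset.sum_congr rfl (fun k _ => by noncomm_ring)

theorem TT_star (s : I → A) (r : Equiv.Perm I) (a : A) :
    star (TT s r a) = TT s r.symm (star a) := by
  unfold TT
  rw [star_sum]
  rw [← Equiv.sum_comp r.symm (fun k => star (s (r k) * a * star (s k)))]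
  refine Finset.sum_congr rfl (fun k _ => ?_)
  simp only [Equiv.apply_symm_apply, star_mul, star_star, mul_assoc]

theorem TT_mul (s : I → A) (y : A) (θ : ℝ) (hs : ∀ k, ‖s k‖ ≤ 2)
    (hst : ∀ j k, j ≠ k → ‖star (s j) * s k‖ ≤ θ) (hss : ∀ k, ‖star (s k) * s k - y * y‖ ≤ θ)
    (r : I → I) (q : Equiv.Perm I) (a b : A) (ha : ‖a‖ ≤ 1) (hb : ‖b‖ ≤ 1) (hay : a * y = a)
    (hyb : y * b = b) :
    ‖TT s r a * TT s q b - TT s (r ∘ q) (a * b)‖ ≤ (Fintype.card I : ℝ) ^ 2 * (4 * θ) := by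
  have e1 : TT s r a * TT s q b
      = ∑ j, ∑ k, (s (r j) * a * star (s j)) * (s (q k) * b * star (s k)) := by
    unfold TT
    rw [Finset.sum_mul_sum]
  have e2 : TT s (r ∘ q) (a * b)
      = ∑ j, ∑ k, (if j = q k then s (r j) * (a * b) * star (s k) else 0) := by
    unfold TT
    rw [Finset.sum_comm]
    refine Finset.sum_congr rfl (fun k _ => ?_)
    simp
  rw [e1, e2, ← Finset.sum_sub_distrib]
  have hbd : ∀ j k, ‖(s (r j) * a * star (s j)) * (s (q k) * b * star (s k))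
      - (if j = q k then s (r j) * (a * b) * star (s k) else 0)‖ ≤ 4 * θ := by
    intro j k
    have gen : ∀ x : A, ‖x‖ ≤ θ → 0 ≤ θ → ‖s (r j) * (a * x * b) * star (s k)‖ ≤ 4 * θ := by
      intro x hx hθ
      have h1 : ‖a * x * b‖ ≤ 1 * θ * 1 := norm_mul3_le _ _ _ _ _ _ zero_le_one hθ ha hx hb
      have := norm_mul3_le _ _ _ _ _ _ zero_le_two (by linarith) (hs (r j)) h1
        (show ‖star (s k)‖ ≤ 2 by rw [norm_star]; exact hs k)
      linarith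
    split_ifs with h
    · subst h
      have e : (s (r (q k)) * a * star (s (q k))) * (s (q k) * b * star (s k))
          - s (r (q k)) * (a * b) * star (s k)
          = s (r (q k)) * (a * (star (s (q k)) * s (q k) - y * y) * b) * star (s k) := by
        have h1 : a * (y * y) * b = a * b := by
          rw [← mul_assoc, hay, mul_assoc, hyb]
        have h2 : a * (star (s (q k)) * s (q k) - y * y) * b
            = a * (star (s (q k)) * s (q k)) * b - a * b := by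
          rw [mul_sub, sub_mul, h1]
        rw [h2]
        noncomm_ring
      rw [e]
      exact gen _ (hss _) ((norm_nonneg _).trans (hss (q k)))
    · rw [sub_zero]
      have e : (s (r j) * a * star (s j)) * (s (q k) * b * star (s k))
          = s (r j) * (a * (star (s j) * s (q k)) * b) * star (s k) := by
        noncomm_ring
      rw [e]
      exact gen _ (hst _ _ h) ((norm_nonneg _).trans (hst _ _ h))
  refine (norm_sum_le _ _).trans ?_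
  have h3 : ∀ j, ‖∑ k, (s (r j) * a * star (s j)) * (s (q k) * b * star (s k))
      - ∑ k, (if j = q k then s (r j) * (a * b) * star (s k) else 0)‖
      ≤ (Fintype.card I : ℝ) * (4 * θ) := by
    intro j
    rw [← Finset.sum_sub_distrib]
    exact sum_norm_bound _ _ (fun k => hbd j k)
  refine (Finset.sum_le_sum (fun j _ => h3 j)).trans ?_
  simp
  apply le_of_eq
  ring

theorem asmU_eq (ρ₁ ρ₂ : Equiv.Perm I) (s : I → A) (c w : A) :
    asmU ρ₁ ρ₂ s c w = 1 - (TT s id (w * w) + TT s (ρ₁ ∘ ρ₂) (w * w))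
      - Complex.I • (TT s ρ₁ (c * w) + TT s ρ₂ (c * w)) := by
  unfold asmU TT
  simp only [Finset.sum_add_distrib, Function.comp_apply, id]

end

theorem asmu_one (A : Type u) [CStarAlgebra A]
    (I : Type) [Fintype I] [DecidableEq I] (ρ₁ ρ₂ : Equiv.Perm I) (s : I → A) (y c w : A) (θ : ℝ)
    (h1 : ∀ k, ρ₁ (ρ₁ k) = k) (h2 : ∀ k, ρ₂ (ρ₂ k) = k)
    (hy : IsSelfAdjoint y) (hc : IsSelfAdjoint c) (hw : IsSelfAdjoint w) (hcw : c * w = w * c)
    (hcw1 : c * c + w * w = 1) (hyw : y * w = w) (hcn : ‖c‖ ≤ 1) (hwn : ‖w‖ ≤ 1)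
    (hs : ∀ k, ‖s k‖ ≤ 2) (hst : ∀ j k, j ≠ k → ‖star (s j) * s k‖ ≤ θ)
    (hss : ∀ k, ‖star (s k) * s k - y * y‖ ≤ θ) :
    star (asmU ρ₁ ρ₂ s c w) = asmU ρ₂ ρ₁ s (-c) w ∧
    ‖star (asmU ρ₁ ρ₂ s c w) * asmU ρ₁ ρ₂ s c w - 1‖ ≤ 64 * (Fintype.card I : ℝ) ^ 4 * θ := by
  have hρ1 : ρ₁.symm = ρ₁ := by
    ext k
    rw [Equiv.symm_apply_eq, h1]
  have hρ2 : ρ₂.symm = ρ₂ := by
    ext k
    rw [Equiv.symm_apply_eq, h2]
  have hwy : w * y = w := by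
    have := congrArg star hyw
    rwa [star_mul, hw.star_eq, hy.star_eq] at this
  obtain ⟨α, hα⟩ : ∃ α : A, α = w * w := ⟨_, rfl⟩
  obtain ⟨β, hβ⟩ : ∃ β : A, β = c * w := ⟨_, rfl⟩
  have hαs : star α = α := by rw [hα, star_mul, hw.star_eq]
  have hβs : star β = β := by rw [hβ, star_mul, hw.star_eq, hc.star_eq, hcw]
  have hαy : α * y = α := by rw [hα, mul_assoc, hwy]
  have hyα : y * α = α := by rw [hα, ← mul_assoc, hyw]
  have hβy : β * y = β := by rw [hβ, mul_assoc, hwy]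
  have hyβ : y * β = β := by rw [hβ, hcw, ← mul_assoc, hyw]
  have hαn : ‖α‖ ≤ 1 := by
    rw [hα]
    refine (norm_mul_le _ _).trans ?_
    nlinarith [norm_nonneg w]
  have hβn : ‖β‖ ≤ 1 := by
    rw [hβ]
    refine (norm_mul_le _ _).trans ?_
    nlinarith [norm_nonneg w, norm_nonneg c]
  have hαβ : α * β = β * α := by
    rw [hα, hβ]
    calc w * w * (c * w) = w * (w * c) * w := by noncomm_ring
      _ = w * (c * w) * w := by rw [hcw]
      _ = (w * c) * w * w := by noncomm_ring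
      _ = (c * w) * w * w := by rw [hcw]
      _ = c * w * (w * w) := by noncomm_ring
  have hsum : α * α + β * β = α := by
    rw [hα, hβ]
    calc w * w * (w * w) + c * w * (c * w) = w * w * (w * w) + c * (w * c) * w := by noncomm_ring
      _ = w * w * (w * w) + c * (c * w) * w := by rw [hcw]
      _ = (c * c + w * w) * (w * w) := by noncomm_ring
      _ = w * w := by rw [hcw1, one_mul]
  have hsumT : ∀ r : I → I, TT s r (α * α) + TT s r (β * β) = TT s r α := by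
    intro r
    rw [← TT_add, hsum]
  obtain ⟨B, hB⟩ : ∃ B : ℝ, B = (Fintype.card I : ℝ) ^ 2 * (4 * θ) := ⟨_, rfl⟩
  have err : ∀ (r : I → I) (q : Equiv.Perm I) (q' t : I → I) (a b : A), ‖a‖ ≤ 1 → ‖b‖ ≤ 1 →
      a * y = a → y * b = b → (⇑q = q') → (r ∘ q' = t) →
      ∃ e : A, TT s r a * TT s q' b = TT s t (a * b) + e ∧ ‖e‖ ≤ B := by
    intro r q q' t a b ha hb hay hyb hq ht
    refine ⟨TT s r a * TT s q b - TT s (r ∘ q) (a * b), ?_, ?_⟩
    · rw [hq, ht]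
      abel
    · rw [hB]
      exact TT_mul s y θ hs hst hss r q a b ha hb hay hyb
  have c1 : (ρ₁ : I → I) ∘ ρ₁ = id := funext h1
  have c2 : (ρ₂ : I → I) ∘ ρ₂ = id := funext h2
  have cπ : (⇑(ρ₂.trans ρ₁) : I → I) = ρ₁ ∘ ρ₂ := rfl
  obtain ⟨e1, g1, n1⟩ := err id (Equiv.refl I) id id α α hαn hαn hαy hyα rfl rfl
  obtain ⟨e2, g2, n2⟩ := err id (ρ₂.trans ρ₁) (ρ₁ ∘ ρ₂) (ρ₁ ∘ ρ₂) α α hαn hαn hαy hyα rfl rfl
  obtain ⟨e3, g3, n3⟩ := err (ρ₂ ∘ ρ₁) (Equiv.refl I) id (ρ₂ ∘ ρ₁) α α hαn hαn hαy hyα rfl rfl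
  obtain ⟨e4, g4, n4⟩ := err (ρ₂ ∘ ρ₁) (ρ₂.trans ρ₁) (ρ₁ ∘ ρ₂) id α α hαn hαn hαy hyα rfl
    (by funext k; simp only [Function.comp_apply, id, h1, h2])
  obtain ⟨e5, g5, n5⟩ := err ρ₁ ρ₁ ρ₁ id β β hβn hβn hβy hyβ rfl c1
  obtain ⟨e6, g6, n6⟩ := err ρ₁ ρ₂ ρ₂ (ρ₁ ∘ ρ₂) β β hβn hβn hβy hyβ rfl rfl
  obtain ⟨e7, g7, n7⟩ := err ρ₂ ρ₁ ρ₁ (ρ₂ ∘ ρ₁) β β hβn hβn hβy hyβ rfl rfl
  obtain ⟨e8, g8, n8⟩ := err ρ₂ ρ₂ ρ₂ id β β hβn hβn hβy hyβ rfl c2
  obtain ⟨f1, k1, m1⟩ := err id ρ₁ ρ₁ ρ₁ α β hαn hβn hαy hyβ rfl rfl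
  obtain ⟨f2, k2, m2⟩ := err id ρ₂ ρ₂ ρ₂ α β hαn hβn hαy hyβ rfl rfl
  obtain ⟨f3, k3, m3⟩ := err (ρ₂ ∘ ρ₁) ρ₁ ρ₁ ρ₂ α β hαn hβn hαy hyβ rfl
    (by funext k; simp only [Function.comp_apply, h1])
  obtain ⟨f4, k4, m4⟩ := err (ρ₂ ∘ ρ₁) ρ₂ ρ₂ (ρ₂ ∘ ρ₁ ∘ ρ₂) α β hαn hβn hαy hyβ rfl rfl
  obtain ⟨f5, k5, m5⟩ := err ρ₁ (Equiv.refl I) id ρ₁ β α hβn hαn hβy hyα rfl rfl
  obtain ⟨f6, k6, m6⟩ := err ρ₁ (ρ₂.trans ρ₁) (ρ₁ ∘ ρ₂) ρ₂ β α hβn hαn hβy hyα rfl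
    (by funext k; simp only [Function.comp_apply, h1])
  obtain ⟨f7, k7, m7⟩ := err ρ₂ (Equiv.refl I) id ρ₂ β α hβn hαn hβy hyα rfl rfl
  obtain ⟨f8, k8, m8⟩ := err ρ₂ (ρ₂.trans ρ₁) (ρ₁ ∘ ρ₂) (ρ₂ ∘ ρ₁ ∘ ρ₂) β α hβn hαn hβy hyα
    rfl rfl
  have sX : star (TT s id α) = TT s id α := by
    have := TT_star s (Equiv.refl I) α
    rw [hαs] at this
    exact this
  have sXπ : star (TT s (ρ₁ ∘ ρ₂) α) = TT s (ρ₂ ∘ ρ₁) α := by
    have := TT_star s (ρ₂.trans ρ₁) α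
    rw [hαs] at this
    have h3 : (⇑(ρ₂.trans ρ₁).symm : I → I) = ρ₂ ∘ ρ₁ := by
      funext k
      simp [hρ1, hρ2]
    rw [h3] at this
    exact this
  have sR1 : star (TT s ρ₁ β) = TT s ρ₁ β := by
    have := TT_star s ρ₁ β
    rwa [hβs, hρ1] at this
  have sR2 : star (TT s ρ₂ β) = TT s ρ₂ β := by
    have := TT_star s ρ₂ β
    rwa [hβs, hρ2] at this
  have hstar : star (asmU ρ₁ ρ₂ s c w) = 1 - (TT s id α + TT s (ρ₂ ∘ ρ₁) α)
      + Complex.I • (TT s ρ₁ β + TT s ρ₂ β) := by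
    rw [asmU_eq, ← hα, ← hβ, star_sub, star_sub, star_one, star_add, sX, sXπ, star_smul, star_add,
      sR1, sR2]
    simp
    abel
  constructor
  · rw [hstar, asmU_eq, ← hα, neg_mul, ← hβ, TT_neg, TT_neg]
    rw [← neg_add, smul_neg, sub_neg_eq_add, add_comm (TT s ρ₁ β)]
  · have hid : star (asmU ρ₁ ρ₂ s c w) * asmU ρ₁ ρ₂ s c w - 1
        = (e1 + e2 + e3 + e4 + e5 + e6 + e7 + e8)
          + Complex.I • (f1 + f2 + f3 + f4 - f5 - f6 - f7 - f8) := by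
      rw [hstar, asmU_eq, ← hα, ← hβ]
      have expand : (1 - (TT s id α + TT s (ρ₂ ∘ ρ₁) α) + Complex.I • (TT s ρ₁ β + TT s ρ₂ β))
          * (1 - (TT s id α + TT s (ρ₁ ∘ ρ₂) α) - Complex.I • (TT s ρ₁ β + TT s ρ₂ β)) - 1
          = - TT s id α - TT s (ρ₁ ∘ ρ₂) α - TT s id α - TT s (ρ₂ ∘ ρ₁) α
            + (TT s id α * TT s id α + TT s id α * TT s (ρ₁ ∘ ρ₂) α
              + TT s (ρ₂ ∘ ρ₁) α * TT s id α + TT s (ρ₂ ∘ ρ₁) α * TT s (ρ₁ ∘ ρ₂) α)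
            + (TT s ρ₁ β * TT s ρ₁ β + TT s ρ₁ β * TT s ρ₂ β + TT s ρ₂ β * TT s ρ₁ β
              + TT s ρ₂ β * TT s ρ₂ β)
            + Complex.I • (TT s id α * TT s ρ₁ β + TT s id α * TT s ρ₂ β
              + TT s (ρ₂ ∘ ρ₁) α * TT s ρ₁ β + TT s (ρ₂ ∘ ρ₁) α * TT s ρ₂ β
              - TT s ρ₁ β * TT s id α - TT s ρ₁ β * TT s (ρ₁ ∘ ρ₂) α
              - TT s ρ₂ β * TT s id α - TT s ρ₂ β * TT s (ρ₁ ∘ ρ₂) α) := by
        generalize TT s id α = X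
        generalize TT s (ρ₁ ∘ ρ₂) α = Y
        generalize TT s (ρ₂ ∘ ρ₁) α = Z
        generalize TT s ρ₁ β = U
        generalize TT s ρ₂ β = V
        have hII : ∀ a b : A, (Complex.I • a) * (Complex.I • b) = -(a * b) := by
          intro a b
          rw [smul_mul_smul_comm, Complex.I_mul_I, neg_smul, one_smul]
        have e0 : (1 - (X + Z) + Complex.I • (U + V)) * (1 - (X + Y) - Complex.I • (U + V)) - 1
            = - X - Y - X - Z + (X + Z) * (X + Y) - (Complex.I • (U + V)) * (Complex.I • (U + V))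
              + ((X + Z) * (Complex.I • (U + V)) - (Complex.I • (U + V)) * (X + Y)) := by
          generalize Complex.I • (U + V) = J
          noncomm_ring
        rw [e0, hII, mul_smul_comm, smul_mul_assoc, ← smul_sub]
        have e9 : (X + Z) * (U + V) - (U + V) * (X + Y)
          = X * U + X * V + Z * U + Z * V - U * X - U * Y - V * X - V * Y := by noncomm_ring
        rw [e9]
        generalize Complex.I • (X * U + X * V + Z * U + Z * V - U * X - U * Y - V * X - V * Y) = J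
        noncomm_ring
      rw [expand, g1, g2, g3, g4, g5, g6, g7, g8, k1, k2, k3, k4, k5, k6, k7, k8, hαβ]
      have s1 := hsumT id
      have s2 := hsumT (ρ₁ ∘ ρ₂)
      have s3 := hsumT (ρ₂ ∘ ρ₁)
      rw [← s1, ← s2, ← s3]
      have e10 : TT s ρ₁ (β * α) + f1 + (TT s ρ₂ (β * α) + f2) + (TT s ρ₂ (β * α) + f3)
          + (TT s (ρ₂ ∘ ρ₁ ∘ ρ₂) (β * α) + f4) - (TT s ρ₁ (β * α) + f5)
          - (TT s ρ₂ (β * α) + f6) - (TT s ρ₂ (β * α) + f7)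
          - (TT s (ρ₂ ∘ ρ₁ ∘ ρ₂) (β * α) + f8) = f1 + f2 + f3 + f4 - f5 - f6 - f7 - f8 := by
        abel
      rw [e10]
      abel
    rw [hid]
    have hn16 : ‖(e1 + e2 + e3 + e4 + e5 + e6 + e7 + e8)
          + Complex.I • (f1 + f2 + f3 + f4 - f5 - f6 - f7 - f8)‖ ≤ 16 * B := by
      have hI : ∀ x : A, ‖Complex.I • x‖ = ‖x‖ := fun x => by
        rw [norm_smul, Complex.norm_I, one_mul]
      have p1 : ‖e1 + e2 + e3 + e4 + e5 + e6 + e7 + e8‖ ≤ 8 * B := by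
        linarith [norm_add_le (e1 + e2 + e3 + e4 + e5 + e6 + e7) e8,
          norm_add_le (e1 + e2 + e3 + e4 + e5 + e6) e7, norm_add_le (e1 + e2 + e3 + e4 + e5) e6,
          norm_add_le (e1 + e2 + e3 + e4) e5, norm_add_le (e1 + e2 + e3) e4,
          norm_add_le (e1 + e2) e3, norm_add_le e1 e2]
      have p2 : ‖f1 + f2 + f3 + f4 - f5 - f6 - f7 - f8‖ ≤ 8 * B := by
        linarith [norm_sub_le (f1 + f2 + f3 + f4 - f5 - f6 - f7) f8,
          norm_sub_le (f1 + f2 + f3 + f4 - f5 - f6) f7, norm_sub_le (f1 + f2 + f3 + f4 - f5) f6,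
          norm_sub_le (f1 + f2 + f3 + f4) f5, norm_add_le (f1 + f2 + f3) f4,
          norm_add_le (f1 + f2) f3, norm_add_le f1 f2]
      refine (norm_add_le _ _).trans ?_
      rw [hI]
      linarith
    refine hn16.trans ?_
    rw [hB]
    rcases isEmpty_or_nonempty I with hI | ⟨⟨o⟩⟩
    · simp
    · have hθ : 0 ≤ θ := (norm_nonneg _).trans (hss o)
      have hcard : (1 : ℝ) ≤ Fintype.card I := by
        have : 0 < Fintype.card I := Fintype.card_pos_iff.mpr ⟨o⟩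
        exact_mod_cast this
      have h24 : (Fintype.card I : ℝ) ^ 2 ≤ (Fintype.card I : ℝ) ^ 4 :=
        pow_le_pow_right₀ hcard (by norm_num)
      calc 16 * ((Fintype.card I : ℝ) ^ 2 * (4 * θ)) = 64 * (Fintype.card I : ℝ) ^ 2 * θ := by ring
        _ ≤ 64 * (Fintype.card I : ℝ) ^ 4 * θ := by gcongr

theorem ASMU_proof : ST_ASMU.{u} := by
  intro A _ _ _ I _ _ ρ₁ ρ₂ s y c w θ h1 h2 hy hc hw hcw hcw1 hyw hcn hwn hs hst hss
  have P1 := asmu_one A I ρ₁ ρ₂ s y c w θ h1 h2 hy hc hw hcw hcw1 hyw hcn hwn hs hst hss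
  have P2 := asmu_one A I ρ₂ ρ₁ s y (-c) w θ h2 h1 hy hc.neg hw (by rw [neg_mul, mul_neg, hcw])
    (by rw [neg_mul_neg, hcw1]) hyw (by rwa [norm_neg]) hwn hs hst hss
  refine ⟨P1.2, ?_⟩
  have h3 := P2.2
  rw [← P1.1, star_star] at h3
  exact h3

end Pool.Agent.Helper44.FP
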