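import Pool.Agent.Helper44.FP.Stmts3
import Pool.Agent.Helper44.FP.Lib

namespace Pool.Agent.Helper44.FP

open scoped Topology

universe u v

section

variable {X : Type v} [MetricSpace X] [CompactSpace X]

/-- the i-th stage of the contraction -/
noncomputable def stage (H : C(unitInterval × X, X)) (N i : ℕ) : C(X, X) :=
  ⟨fun x => H (Set.projIcc (0 : ℝ) 1 zero_le_one ((i : ℝ) / N), x), by fun_prop⟩

theorem stage_zero (H : C(unitInterval × X, X)) (N : ℕ) (h0 : ∀ x, H (0, x) = x) (x : X) :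
    stage H N 0 x = x := by
  have : Set.projIcc (0 : ℝ) 1 zero_le_one (((0 : ℕ) : ℝ) / N) = 0 := by
    rw [Nat.cast_zero, zero_div]
    exact Set.projIcc_left (h := zero_le_one)
  simp only [stage, ContinuousMap.coe_mk]
  rw [this, h0]

theorem stage_last (H : C(unitInterval × X, X)) (N : ℕ) (hN : 0 < N) (p : X)
    (h1 : ∀ x, H (1, x) = p) (x : X) : stage H N N x = p := by
  have : Set.projIcc (0 : ℝ) 1 zero_le_one ((N : ℝ) / N) = 1 := by
    rw [div_self (by exact_mod_cast hN.ne')]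
    exact Set.projIcc_right (h := zero_le_one)
  simp only [stage, ContinuousMap.coe_mk]
  rw [this, h1]

theorem exists_mesh (H : C(unitInterval × X, X)) (F : Finset C(X, ℝ)) (ω : ℝ) (hω : 0 < ω) :
    ∃ N : ℕ, 0 < N ∧ ∀ f ∈ F, ∀ i, i < N → ∀ x,
      |f (stage H N (i + 1) x) - f (stage H N i x)| ≤ ω := by
  classical
  have key : ∃ δ : ℝ, 0 < δ ∧ ∀ f ∈ F, ∀ a b : unitInterval × X, dist a b < δ →
      |f (H a) - f (H b)| ≤ ω := by
    induction F using Finset.induction_on with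
    | empty => exact ⟨1, one_pos, by simp⟩
    | insert f F hf ih =>
      obtain ⟨δ, hδ, h⟩ := ih
      have huc : UniformContinuous (fun a => f (H a)) :=
        CompactSpace.uniformContinuous_of_continuous (by fun_prop)
      obtain ⟨δ', hδ', h'⟩ := Metric.uniformContinuous_iff.mp huc ω hω
      refine ⟨min δ δ', lt_min hδ hδ', ?_⟩
      intro g hg a b hab
      rcases Finset.mem_insert.mp hg with rfl | hg
      · have := h' (lt_of_lt_of_le hab (min_le_right _ _))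
        rw [Real.dist_eq] at this
        exact this.le
      · exact h g hg a b (lt_of_lt_of_le hab (min_le_left _ _))
  obtain ⟨δ, hδ, h⟩ := key
  obtain ⟨N, hN⟩ := exists_nat_gt (1 / δ)
  have hN0 : (0 : ℝ) < N := lt_trans (by positivity) hN
  refine ⟨N, by exact_mod_cast hN0, ?_⟩
  intro f hf i hi x
  apply h f hf
  rw [Prod.dist_eq]
  have h1 : dist (Set.projIcc (0 : ℝ) 1 zero_le_one (((i + 1 : ℕ) : ℝ) / N))
      (Set.projIcc (0 : ℝ) 1 zero_le_one ((i : ℝ) / N)) ≤ 1 / N := by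
    have hi1 : ((i + 1 : ℕ) : ℝ) / N ∈ Set.Icc (0 : ℝ) 1 := by
      constructor
      · positivity
      · rw [div_le_one hN0]
        exact_mod_cast hi
    have hi0 : ((i : ℕ) : ℝ) / N ∈ Set.Icc (0 : ℝ) 1 := by
      constructor
      · positivity
      · rw [div_le_one hN0]
        exact_mod_cast hi.le
    rw [Set.projIcc_of_mem zero_le_one hi1, Set.projIcc_of_mem zero_le_one hi0, Subtype.dist_eq,
      Real.dist_eq]
    push_cast
    rw [← sub_div, add_sub_cancel_left, abs_of_nonneg (by positivity)]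
  have h2 : (1 : ℝ) / N < δ := by
    rw [div_lt_iff₀ hN0]
    rw [div_lt_iff₀ hδ] at hN
    linarith
  simp only [dist_self]
  rw [max_lt_iff]
  exact ⟨lt_of_le_of_lt h1 h2, hδ⟩

end

theorem norm_le_one_of {A : Type u} [CStarAlgebra A] [PartialOrder A] [StarOrderedRing A]
    {a : A} (h0 : 0 ≤ a) (h1 : a ≤ 1) : ‖a‖ ≤ 1 := by
  rw [CStarAlgebra.norm_le_one_iff_of_nonneg a h0]
  exact h1

/-- the family with `y` at the base index -/
noncomputable def baseFam {A : Type u} {N : ℕ} (y : A) (s' : ZMod (2 * N) → A)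
    (k : ZMod (2 * N)) : A :=
  if k = 0 then y else s' k

theorem chain_f (hINT : ST_INT.{u}) (hCYC : ST_CYC.{u}) (hI : ST_ASMI.{u})
    (A : Type u) [CStarAlgebra A] [PartialOrder A] [StarOrderedRing A]
    (N : ℕ) (hN : 0 < N) [NeZero (2 * N)] (a b : ℕ → A) (M ω τ θ₁ : ℝ) (hM : 1 ≤ M) (hτ : 0 ≤ τ)
    (ha : ∀ i, IsSelfAdjoint (a i)) (hb : ∀ i, IsSelfAdjoint (b i))
    (hna : ∀ i, ‖a i‖ ≤ M) (hnb : ∀ i, ‖b i‖ ≤ M)
    (hsa : ∀ i, i < N → ‖a (i + 1) - a i‖ ≤ ω) (hsb : ∀ i, i < N → ‖b (i + 1) - b i‖ ≤ ω)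
    (hab : a N = b N)
    (y c w : A) (hy0 : 0 ≤ y) (hy1 : y ≤ 1) (hc0 : 0 ≤ c) (hc1 : c ≤ 1) (hw0 : 0 ≤ w) (hw1 : w ≤ 1)
    (hcw : c * w = w * c) (hcw1 : c * c + w * w = 1)
    (hcD : ∀ i, i ≤ N → ‖c * (b i - a i)‖ ≤ 2 * τ) (hyD : ‖(1 - y) * (b 0 - a 0)‖ ≤ 2 * τ)
    (hca : ∀ i, ‖y * a i - a i * y‖ ≤ τ ∧ ‖(w * w) * a i - a i * (w * w)‖ ≤ τ ∧
      ‖(c * w) * a i - a i * (c * w)‖ ≤ τ)
    (hcb : ∀ i, ‖y * b i - b i * y‖ ≤ τ ∧ ‖(w * w) * b i - b i * (w * w)‖ ≤ τ ∧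
      ‖(c * w) * b i - b i * (c * w)‖ ≤ τ)
    (s' : ZMod (2 * N) → A) (hs1 : ∀ j k, j ≠ k → star (s' j) * s' k = 0)
    (hs2 : ∀ k, ‖y * s' k‖ ≤ τ) (hs3 : ∀ k, ‖star (s' k) * s' k - y * y‖ ≤ τ)
    (hs4 : ∀ k, ‖star (s' k) * a 0 * s' k - y * chPhi N a b k * y‖ ≤ τ)
    (hs5 : ∀ k, ‖star (s' k) * (a 0 * a 0) * s' k
      - y * (chPhi N a b k * chPhi N a b k) * y‖ ≤ τ)
    (hθ1 : ((2 * N : ℕ) : ℝ) ^ 2 * θ₁ ≤ 1) (hθ0 : 0 < θ₁) (hτ1 : τ ≤ 1)
    (hτ2 : τ * (1 + M) ^ 2 + τ ^ 2 ≤ (θ₁ / 2) ^ 2) (hτ3 : 4 * τ + 2 * M * τ ≤ θ₁ / 2) :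
    ‖b 0 * asmU (Equiv.subLeft (1 : ZMod (2 * N))) (Equiv.neg (ZMod (2 * N))) (baseFam y s') c w
      - asmU (Equiv.subLeft (1 : ZMod (2 * N))) (Equiv.neg (ZMod (2 * N))) (baseFam y s') c w * a 0‖
      ≤ 10 * ω + 50 * ((2 * N : ℕ) : ℝ) * θ₁ := by
  have hτθ : τ ≤ θ₁ := by nlinarith
  have h2τθ : 4 * τ ≤ θ₁ := by nlinarith
  have hyn := norm_le_one_of hy0 hy1
  have hcn := norm_le_one_of hc0 hc1
  have hwn := norm_le_one_of hw0 hw1
  have hysa : IsSelfAdjoint y := IsSelfAdjoint.of_nonneg hy0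
  have hcsa : IsSelfAdjoint c := IsSelfAdjoint.of_nonneg hc0
  have hwsa : IsSelfAdjoint w := IsSelfAdjoint.of_nonneg hw0
  have hPhi_sa : ∀ k : ZMod (2 * N), IsSelfAdjoint (chPhi N a b k) := by
    intro k
    unfold chPhi
    split_ifs
    · exact ha _
    · exact hb _
  have hPhi_n : ∀ k : ZMod (2 * N), ‖chPhi N a b k‖ ≤ M := by
    intro k
    unfold chPhi
    split_ifs
    · exact hna _
    · exact hnb _
  have hPhi_c : ∀ k : ZMod (2 * N), ‖y * chPhi N a b k - chPhi N a b k * y‖ ≤ τ ∧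
      ‖(w * w) * chPhi N a b k - chPhi N a b k * (w * w)‖ ≤ τ ∧
      ‖(c * w) * chPhi N a b k - chPhi N a b k * (c * w)‖ ≤ τ := by
    intro k
    unfold chPhi
    split_ifs
    · exact hca _
    · exact hcb _
  have hPsi_c : ∀ k : ZMod (2 * N),
      ‖(w * w) * chPsi N a b k - chPsi N a b k * (w * w)‖ ≤ τ ∧
      ‖(c * w) * chPsi N a b k - chPsi N a b k * (c * w)‖ ≤ τ := by
    intro k
    unfold chPsi
    split_ifs
    · exact (hcb _).2
    · exact (hPhi_c k).2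
  have hPhi0 : chPhi N a b 0 = a 0 := by
    unfold chPhi
    simp
  have hPsi0 : chPsi N a b 0 = b 0 := by
    unfold chPsi
    simp
  have hD1 : ‖(b 0 - a 0) * (1 - y)‖ ≤ 2 * τ := by
    have : (b 0 - a 0) * (1 - y) = star ((1 - y) * (b 0 - a 0)) := by
      rw [star_mul, star_sub, star_sub, (ha 0).star_eq, (hb 0).star_eq, star_one, hysa.star_eq]
    rw [this, norm_star]
    exact hyD
  have hDn : ‖b 0 - a 0‖ ≤ 2 * M := by
    refine (norm_sub_le _ _).trans ?_
    linarith [hna 0, hnb 0]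
  have hs2n : ∀ k, ‖s' k‖ ≤ 2 := by
    intro k
    have h1 : ‖star (s' k) * s' k‖ ≤ 2 := by
      have h2 : star (s' k) * s' k = (star (s' k) * s' k - y * y) + y * y := by abel
      rw [h2]
      refine (norm_add_le _ _).trans ?_
      have h3 : ‖y * y‖ ≤ 1 := by
        refine (norm_mul_le _ _).trans ?_
        nlinarith [norm_nonneg y]
      linarith [hs3 k]
    rw [CStarRing.norm_star_mul_self] at h1
    nlinarith [norm_nonneg (s' k)]
  have hPs : ∀ k, ‖a 0 * s' k - s' k * chPhi N a b k‖ ≤ θ₁ / 2 := by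
    intro k
    have h1 := hINT A (s' k) y (a 0) (chPhi N a b k) τ hysa (ha 0) (hPhi_sa k) (hs3 k) (hs4 k)
      (hs5 k)
    have h2 : τ * (1 + ‖chPhi N a b k‖) ^ 2 ≤ τ * (1 + M) ^ 2 := by
      apply mul_le_mul_of_nonneg_left _ hτ
      have := hPhi_n k
      have := norm_nonneg (chPhi N a b k)
      nlinarith
    have h3 : ‖y * chPhi N a b k - chPhi N a b k * y‖ ^ 2 ≤ τ ^ 2 := by
      have := (hPhi_c k).1
      have := norm_nonneg (y * chPhi N a b k - chPhi N a b k * y)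
      nlinarith
    have h4 : ‖a 0 * s' k - s' k * chPhi N a b k‖ ^ 2 ≤ (θ₁ / 2) ^ 2 := by linarith
    exact le_of_sq_le_sq h4 (by positivity)
  have hDs : ∀ k, ‖(b 0 - a 0) * s' k‖ ≤ 4 * τ + 2 * M * τ := by
    intro k
    have h1 : (b 0 - a 0) * s' k = (b 0 - a 0) * (1 - y) * s' k + (b 0 - a 0) * (y * s' k) := by
      noncomm_ring
    rw [h1]
    refine (norm_add_le _ _).trans ?_
    have h2 : ‖(b 0 - a 0) * (1 - y) * s' k‖ ≤ 2 * τ * 2 := by
      refine (norm_mul_le _ _).trans ?_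
      exact mul_le_mul hD1 (hs2n k) (norm_nonneg _) (by linarith)
    have h3 : ‖(b 0 - a 0) * (y * s' k)‖ ≤ 2 * M * τ := by
      refine (norm_mul_le _ _).trans ?_
      exact mul_le_mul hDn (hs2 k) (norm_nonneg _) (by linarith)
    linarith
  have hQs : ∀ k, ‖b 0 * s' k - s' k * chPhi N a b k‖ ≤ θ₁ := by
    intro k
    have h1 : b 0 * s' k - s' k * chPhi N a b k
        = (a 0 * s' k - s' k * chPhi N a b k) + (b 0 - a 0) * s' k := by
      noncomm_ring
    rw [h1]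
    refine (norm_add_le _ _).trans ?_
    linarith [hPs k, hDs k]
  obtain ⟨hC1, ⟨W, hW1, hW2⟩, hC3⟩ := hCYC A N hN a b c ω (2 * τ) hsa hsb hab hcD
  have hcard : (Fintype.card (ZMod (2 * N)) : ℝ) = ((2 * N : ℕ) : ℝ) := by
    rw [ZMod.card]
  have := hI A (ZMod (2 * N)) (Equiv.subLeft (1 : ZMod (2 * N))) (Equiv.neg (ZMod (2 * N))) 0
    (baseFam y s') (chPhi N a b) (chPsi N a b) W c w (a 0) (b 0) ω θ₁ (ha 0) (hb 0) hPhi_sa
    (by simp only [baseFam, if_true]; exact hysa) hcsa hwsa hcw hcn hwn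
    (by simp only [baseFam, if_true]; exact hyn)
    (by
      intro k
      unfold baseFam
      split_ifs
      · linarith
      · exact hs2n k)
    (by
      intro j k hjk
      unfold baseFam
      split_ifs with h1 h2 h3
      · exact absurd (h1.trans h2.symm) hjk
      · rw [hysa.star_eq]
        exact (hs2 k).trans hτθ
      · have h4 : star (s' j) * y = star (y * s' j) := by
          rw [star_mul, hysa.star_eq]
        rw [h4, norm_star]
        exact (hs2 j).trans hτθ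
      · rw [hs1 j k hjk, norm_zero]
        exact hθ0.le)
    (by rw [hcard]; exact hθ1)
    (by
      intro k hk
      unfold chPsi
      rw [if_neg hk])
    hPhi0 hPsi0
    (by
      intro k
      unfold baseFam
      split_ifs with h1
      · subst h1
        rw [hPhi0, norm_sub_rev]
        exact (hca 0).1.trans hτθ
      · linarith [hPs k])
    (by
      intro k
      unfold baseFam
      split_ifs with h1
      · subst h1
        rw [hPsi0, norm_sub_rev]
        exact (hcb 0).1.trans hτθ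
      · have h2 : chPsi N a b k = chPhi N a b k := by
          unfold chPsi
          rw [if_neg h1]
        rw [h2]
        exact hQs k)
    (fun k => (hPsi_c k).1.trans hτθ) (fun k => (hPsi_c k).2.trans hτθ)
    (by
      simp only [baseFam, if_true]
      have h1 : (b 0 - a 0) - y * (b 0 - a 0) * y
          = (1 - y) * (b 0 - a 0) + y * ((b 0 - a 0) * (1 - y)) := by
        noncomm_ring
      rw [h1]
      refine (norm_add_le _ _).trans ?_
      have h2 : ‖y * ((b 0 - a 0) * (1 - y))‖ ≤ 1 * (2 * τ) := by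
        refine (norm_mul_le _ _).trans ?_
        exact mul_le_mul hyn hD1 (norm_nonneg _) zero_le_one
      linarith)
    (by
      have h1 : (b 0 - a 0) - w * w * (b 0 - a 0) = c * (c * (b 0 - a 0)) := by
        have h2 : w * w = 1 - c * c := by rw [← hcw1]; abel
        rw [h2]
        noncomm_ring
      rw [h1]
      have h2 : ‖c * (c * (b 0 - a 0))‖ ≤ 1 * (2 * τ) := by
        refine (norm_mul_le _ _).trans ?_
        exact mul_le_mul hcn (hcD 0 (Nat.zero_le _)) (norm_nonneg _) zero_le_one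
      linarith)
    (by
      intro k
      have h1 : (Equiv.subLeft (1 : ZMod (2 * N))) ((Equiv.neg (ZMod (2 * N))) k) = k + 1 := by
        simp [add_comm]
      rw [h1]
      exact hC1 k)
    hW1
    (by
      intro k
      have h1 : (Equiv.subLeft (1 : ZMod (2 * N))) k = 1 - k := by simp
      rw [h1]
      exact (hW2 k).trans (by linarith))
    (by
      intro k
      have h1 : (Equiv.neg (ZMod (2 * N))) k = -k := by simp
      rw [h1]
      exact (hC3 k).trans (by linarith))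
  rw [hcard] at this
  exact this

theorem exists_theta (n δP ε : ℝ) (hn : 0 < n) (hδ : 0 < δP) (hε : 0 < ε) :
    ∃ θ₁ : ℝ, 0 < θ₁ ∧ 64 * n ^ 4 * θ₁ ≤ δP ∧ 50 * n * θ₁ ≤ ε / 4 ∧ n ^ 2 * θ₁ ≤ 1 := by
  refine ⟨min (δP / (64 * n ^ 4)) (min (ε / (200 * n)) (1 / n ^ 2)), ?_, ?_, ?_, ?_⟩
  · positivity
  · calc 64 * n ^ 4 * min (δP / (64 * n ^ 4)) (min (ε / (200 * n)) (1 / n ^ 2))
        ≤ 64 * n ^ 4 * (δP / (64 * n ^ 4)) := by
          apply mul_le_mul_of_nonneg_left (min_le_left _ _) (by positivity)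
      _ = δP := by field_simp
  · calc 50 * n * min (δP / (64 * n ^ 4)) (min (ε / (200 * n)) (1 / n ^ 2))
        ≤ 50 * n * (ε / (200 * n)) := by
          apply mul_le_mul_of_nonneg_left _ (by positivity)
          exact (min_le_right _ _).trans (min_le_left _ _)
      _ = ε / 4 := by field_simp; ring
  · calc n ^ 2 * min (δP / (64 * n ^ 4)) (min (ε / (200 * n)) (1 / n ^ 2))
        ≤ n ^ 2 * (1 / n ^ 2) := by
          apply mul_le_mul_of_nonneg_left _ (by positivity)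
          exact (min_le_right _ _).trans (min_le_right _ _)
      _ = 1 := by field_simp

theorem exists_tau (M θ₁ : ℝ) (hM : 1 ≤ M) (hθ : 0 < θ₁) :
    ∃ τ : ℝ, 0 < τ ∧ τ ≤ 1 ∧ τ * (1 + M) ^ 2 + τ ^ 2 ≤ (θ₁ / 2) ^ 2 ∧
      4 * τ + 2 * M * τ ≤ θ₁ / 2 := by
  refine ⟨min 1 (min ((θ₁ / 2) ^ 2 / ((1 + M) ^ 2 + 1)) (θ₁ / 2 / (4 + 2 * M))), ?_, ?_, ?_, ?_⟩
  · positivity
  · exact min_le_left _ _
  · set τ := min 1 (min ((θ₁ / 2) ^ 2 / ((1 + M) ^ 2 + 1)) (θ₁ / 2 / (4 + 2 * M))) with hτ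
    have h1 : τ ≤ 1 := min_le_left _ _
    have h0 : 0 < τ := by positivity
    have h2 : τ ≤ (θ₁ / 2) ^ 2 / ((1 + M) ^ 2 + 1) := (min_le_right _ _).trans (min_le_left _ _)
    rw [le_div_iff₀ (by positivity)] at h2
    nlinarith
  · set τ := min 1 (min ((θ₁ / 2) ^ 2 / ((1 + M) ^ 2 + 1)) (θ₁ / 2 / (4 + 2 * M))) with hτ
    have h2 : τ ≤ θ₁ / 2 / (4 + 2 * M) := (min_le_right _ _).trans (min_le_right _ _)
    rw [le_div_iff₀ (by positivity)] at h2
    nlinarith

theorem CHAIN_aux (hABS : ST_ABS.{u, v}) (hINT : ST_INT.{u}) (hCUT : ST_CUT.{u})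
    (hCYC : ST_CYC.{u}) (hAU : ST_ASMU.{u}) (hI : ST_ASMI.{u}) (hP : ST_POLAR.{u}) :
    ST_CHAIN.{u, v} := by
  classical
  intro A _ _ _ X _ _ hperf H p h0 h1 t ht hWC φ hφ F ε hε
  obtain ⟨M, hM1, hMF⟩ : ∃ M : ℝ, 1 ≤ M ∧ ∀ f ∈ F, ‖f‖ ≤ M := by
    refine ⟨1 + ∑ f ∈ F, ‖f‖, ?_, ?_⟩
    · have : 0 ≤ ∑ f ∈ F, ‖f‖ := Finset.sum_nonneg (fun _ _ => norm_nonneg _)
      linarith
    · intro f hf
      have := Finset.single_le_sum (f := fun f : C(X, ℝ) => ‖f‖) (fun _ _ => norm_nonneg _) hf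
      linarith
  obtain ⟨N, hN, hmesh⟩ := exists_mesh H F (ε / 40) (by positivity)
  have : NeZero (2 * N) := ⟨by omega⟩
  obtain ⟨δP, hδP, hpol⟩ := hP A (ε / (8 * M)) (by positivity)
  have hn : (0 : ℝ) < ((2 * N : ℕ) : ℝ) := by
    have : 0 < 2 * N := by omega
    exact_mod_cast this
  obtain ⟨θ₁, hθ0, hθ2, hθ3, hθ1⟩ := exists_theta ((2 * N : ℕ) : ℝ) δP ε hn hδP hε
  obtain ⟨τ, hτ0, hτ1, hτ2, hτ3⟩ := exists_tau M θ₁ hM1 hθ0
  obtain ⟨θA, LA, hθA, habs⟩ := hABS A X hperf t ht hWC φ hφ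
    (F ∪ F.image (fun f => f * f) ∪ {1}) τ hτ0 (2 * N)
  obtain ⟨L, hL⟩ : ∃ L : Finset C(X, ℝ), L = LA ∪ F.biUnion (fun f =>
    (Finset.range (N + 1)).image (fun i => f.comp (stage H N i))) := ⟨_, rfl⟩
  obtain ⟨M', hM'⟩ : ∃ M' : ℝ, ∀ g ∈ L, ‖g‖ ≤ M' :=
    ⟨∑ g ∈ L, ‖g‖, fun g hg =>
      Finset.single_le_sum (f := fun f : C(X, ℝ) => ‖f‖) (fun _ _ => norm_nonneg _) hg⟩
  obtain ⟨δC, hδC, hcut⟩ := hCUT A M' (min τ θA) (lt_min hτ0 hθA)
  refine ⟨min δC (min (θA / 4) τ), L, by positivity, ?_⟩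
  intro ψ e he0 he1 hte hLe
  obtain ⟨y, z, c, w, hy0, hy1, hz0, hz1, hc0, hc1, hw0, hw1, hyz, hyw, hcw, hcw1, htz, hcomm,
    hD⟩ := hcut e he0 he1
  have hyn := norm_le_one_of hy0 hy1
  have hcn := norm_le_one_of hc0 hc1
  have hwn := norm_le_one_of hw0 hw1
  have hysa : IsSelfAdjoint y := IsSelfAdjoint.of_nonneg hy0
  have hcsa : IsSelfAdjoint c := IsSelfAdjoint.of_nonneg hc0
  have hwsa : IsSelfAdjoint w := IsSelfAdjoint.of_nonneg hw0
  have hmin1 : min δC (min (θA / 4) τ) ≤ δC := min_le_left _ _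
  have hmin2 : min δC (min (θA / 4) τ) ≤ θA / 4 := (min_le_right _ _).trans (min_le_left _ _)
  have hmin3 : min δC (min (θA / 4) τ) ≤ τ := (min_le_right _ _).trans (min_le_right _ _)
  have hmem : ∀ f ∈ F, ∀ i, f.comp (stage H N (min i N)) ∈ L := by
    intro f hf i
    rw [hL]
    apply Finset.mem_union_right
    rw [Finset.mem_biUnion]
    refine ⟨f, hf, ?_⟩
    rw [Finset.mem_image]
    exact ⟨min i N, Finset.mem_range.mpr (by omega), rfl⟩
  have hcφ : ∀ g ∈ L, ‖y * φ g - φ g * y‖ ≤ min τ θA ∧ ‖z * φ g - φ g * z‖ ≤ min τ θA ∧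
          ‖(w * w) * φ g - φ g * (w * w)‖ ≤ min τ θA ∧
          ‖(c * w) * φ g - φ g * (c * w)‖ ≤ min τ θA := by
    intro g hg
    exact hcomm (φ g) ((hom_norm_le' φ g).trans (hM' g hg)) ((hLe g hg).1.trans hmin1)
  have hcψ : ∀ g ∈ L, ‖y * ψ g - ψ g * y‖ ≤ min τ θA ∧ ‖z * ψ g - ψ g * z‖ ≤ min τ θA ∧
          ‖(w * w) * ψ g - ψ g * (w * w)‖ ≤ min τ θA ∧
          ‖(c * w) * ψ g - ψ g * (c * w)‖ ≤ min τ θA := by
    intro g hg
    exact hcomm (ψ g) ((hom_norm_le' ψ g).trans (hM' g hg)) ((hLe g hg).2.1.trans hmin1)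
  obtain ⟨σ, hσ⟩ : ∃ σ : Fin (2 * N) → (C(X, ℝ) →⋆ₐ[ℝ] A), ∀ k, σ k = if k.val ≤ N then
      φ.comp (ContinuousMap.compStarAlgHom' ℝ ℝ (stage H N (min k.val N)))
      else ψ.comp (ContinuousMap.compStarAlgHom' ℝ ℝ (stage H N (min (2 * N - k.val) N))) :=
    ⟨_, fun k => rfl⟩
  have hσΦ : ∀ (k : ZMod (2 * N)) (f : C(X, ℝ)), σ ⟨k.val, ZMod.val_lt k⟩ f
      = chPhi N (fun i => φ (f.comp (stage H N (min i N))))
        (fun i => ψ (f.comp (stage H N (min i N)))) k := by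
    intro k f
    rw [hσ]
    unfold chPhi
    simp only
    split_ifs <;> rfl
  obtain ⟨s, hs1, hs2, hs3⟩ := habs y z hy0 hy1 hz0 hz1 hyz
    (by
      have := htz t ht
      linarith)
    (fun g hg => (hcφ g (by rw [hL]; exact Finset.mem_union_left _ hg)).2.1.trans
      (min_le_right _ _)) σ
  obtain ⟨s', hs'⟩ : ∃ s' : ZMod (2 * N) → A, ∀ k, s' k = s ⟨k.val, ZMod.val_lt k⟩ :=
    ⟨_, fun k => rfl⟩
  have hs'1 : ∀ j k, j ≠ k → star (s' j) * s' k = 0 := by
    intro j k hjk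
    rw [hs', hs']
    apply hs1
    intro h
    apply hjk
    have := congrArg Fin.val h
    simp only at this
    exact ZMod.val_injective (2 * N) this
  have hs'2 : ∀ k, ‖y * s' k‖ ≤ τ := fun k => by
    rw [hs']
    exact hs2 _
  have hs'3 : ∀ k, ∀ f ∈ F ∪ F.image (fun f => f * f) ∪ {1},
      ‖star (s' k) * φ f * s' k - y * chPhi N (fun i => φ (f.comp (stage H N (min i N))))
        (fun i => ψ (f.comp (stage H N (min i N)))) k * y‖ ≤ τ := by
    intro k f hf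
    rw [← hσΦ k f, hs']
    exact hs3 _ f hf
  have hs'4 : ∀ k, ‖star (s' k) * s' k - y * y‖ ≤ τ := by
    intro k
    have h2 := hs3 ⟨k.val, ZMod.val_lt k⟩ 1
      (Finset.mem_union_right _ (Finset.mem_singleton_self _))
    rw [map_one, map_one, mul_one, mul_one] at h2
    rw [hs']
    exact h2
  have hs2n : ∀ k, ‖s' k‖ ≤ 2 := by
    intro k
    have h1 : ‖star (s' k) * s' k‖ ≤ 2 := by
      have h2 : star (s' k) * s' k = (star (s' k) * s' k - y * y) + y * y := by abel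
      rw [h2]
      refine (norm_add_le _ _).trans ?_
      have h3 : ‖y * y‖ ≤ 1 := by
        refine (norm_mul_le _ _).trans ?_
        nlinarith [norm_nonneg y]
      linarith [hs'4 k]
    rw [CStarRing.norm_star_mul_self] at h1
    nlinarith [norm_nonneg (s' k)]
  have hτθ : τ ≤ θ₁ := by nlinarith
  have hcard : (Fintype.card (ZMod (2 * N)) : ℝ) = ((2 * N : ℕ) : ℝ) := by
    rw [ZMod.card]
  have hx := hAU A (ZMod (2 * N)) (Equiv.subLeft (1 : ZMod (2 * N))) (Equiv.neg (ZMod (2 * N)))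
    (baseFam y s') y c w θ₁ (fun k => by simp) (fun k => by simp) hysa hcsa hwsa hcw hcw1 hyw hcn
    hwn
    (by
      intro k
      unfold baseFam
      split_ifs
      · linarith
      · exact hs2n k)
    (by
      intro j k hjk
      unfold baseFam
      split_ifs with h1 h2 h3
      · exact absurd (h1.trans h2.symm) hjk
      · rw [hysa.star_eq]
        exact (hs'2 k).trans hτθ
      · have h4 : star (s' j) * y = star (y * s' j) := by
          rw [star_mul, hysa.star_eq]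
        rw [h4, norm_star]
        exact (hs'2 j).trans hτθ
      · rw [hs'1 j k hjk, norm_zero]
        exact hθ0.le)
    (by
      intro k
      unfold baseFam
      split_ifs with h1
      · rw [hysa.star_eq, sub_self, norm_zero]
        exact hθ0.le
      · exact (hs'4 k).trans hτθ)
  rw [hcard] at hx
  obtain ⟨u, hu, hux⟩ := hpol _ (hx.1.trans hθ2) (hx.2.trans hθ2)
  refine ⟨u, hu, ?_⟩
  intro f hf
  have hcomp0 : f.comp (stage H N (min 0 N)) = f := by
    ext x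
    rw [ContinuousMap.comp_apply, Nat.min_eq_left (Nat.zero_le N), stage_zero H N h0]
  have hnorm : ∀ (χ : C(X, ℝ) →⋆ₐ[ℝ] A) (g : C(X, X)), ‖χ (f.comp g)‖ ≤ M := by
    intro χ g
    apply hom_norm_le χ _ (by linarith)
    intro x
    rw [ContinuousMap.comp_apply, ← Real.norm_eq_abs]
    exact (f.norm_coe_le_norm _).trans (hMF f hf)
  have hstep : ∀ (χ : C(X, ℝ) →⋆ₐ[ℝ] A) (i : ℕ), i < N →
      ‖χ (f.comp (stage H N (min (i + 1) N))) - χ (f.comp (stage H N (min i N)))‖ ≤ ε / 40 := by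
    intro χ i hi
    rw [← map_sub]
    apply hom_norm_le χ _ (by positivity)
    intro x
    rw [Nat.min_eq_left (by omega : i + 1 ≤ N), Nat.min_eq_left hi.le]
    simp only [ContinuousMap.sub_apply, ContinuousMap.comp_apply]
    exact hmesh f hf i hi x
  have hlast : φ (f.comp (stage H N (min N N))) = ψ (f.comp (stage H N (min N N))) := by
    have : f.comp (stage H N (min N N)) = algebraMap ℝ C(X, ℝ) (f p) := by
      ext x
      rw [ContinuousMap.comp_apply, Nat.min_self, stage_last H N hN p h1]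
      rfl
    rw [this, AlgHomClass.commutes, AlgHomClass.commutes]
  have hfin := chain_f hINT hCYC hI A N hN (fun i => φ (f.comp (stage H N (min i N))))
    (fun i => ψ (f.comp (stage H N (min i N)))) M (ε / 40) τ θ₁ hM1 hτ0.le
    (fun i => hom_isSelfAdjoint φ _) (fun i => hom_isSelfAdjoint ψ _) (fun i => hnorm φ _)
    (fun i => hnorm ψ _) (hstep φ) (hstep ψ) hlast y c w hy0 hy1 hc0 hc1 hw0 hw1 hcw hcw1
    (by
      intro i _
      have h2 := (hD (ψ (f.comp (stage H N (min i N))) - φ (f.comp (stage H N (min i N))))).1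
      have h3 := (hLe _ (hmem f hf i)).2.2
      rw [← neg_sub (ψ _) (φ _), mul_neg, norm_neg] at h3
      linarith)
    (by
      have h2 := (hD (ψ (f.comp (stage H N (min 0 N))) - φ (f.comp (stage H N (min 0 N))))).2
      have h3 := (hLe _ (hmem f hf 0)).2.2
      rw [← neg_sub (ψ _) (φ _), mul_neg, norm_neg] at h3
      linarith)
    (fun i => ⟨(hcφ _ (hmem f hf i)).1.trans (min_le_left _ _),
      (hcφ _ (hmem f hf i)).2.2.1.trans (min_le_left _ _),
      (hcφ _ (hmem f hf i)).2.2.2.trans (min_le_left _ _)⟩)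
    (fun i => ⟨(hcψ _ (hmem f hf i)).1.trans (min_le_left _ _),
      (hcψ _ (hmem f hf i)).2.2.1.trans (min_le_left _ _),
      (hcψ _ (hmem f hf i)).2.2.2.trans (min_le_left _ _)⟩)
    s' hs'1 hs'2 hs'4
    (by
      intro k
      have h2 := hs'3 k f (Finset.mem_union_left _ (Finset.mem_union_left _ hf))
      simp only [hcomp0]
      exact h2)
    (by
      intro k
      have h2 := hs'3 k (f * f) (Finset.mem_union_left _ (Finset.mem_union_right _
        (Finset.mem_image_of_mem _ hf)))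
      have h3 : chPhi N (fun i => φ ((f * f).comp (stage H N (min i N))))
        (fun i => ψ ((f * f).comp (stage H N (min i N)))) k
        = chPhi N (fun i => φ (f.comp (stage H N (min i N))))
          (fun i => ψ (f.comp (stage H N (min i N)))) k *
          chPhi N (fun i => φ (f.comp (stage H N (min i N))))
          (fun i => ψ (f.comp (stage H N (min i N)))) k := by
        rw [← hσΦ, ← hσΦ, map_mul]
      rw [h3, map_mul] at h2
      simp only [hcomp0]
      exact h2)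
    hθ1 hθ0 hτ1 hτ2 hτ3
  simp only [hcomp0] at hfin
  obtain ⟨x, hxdef⟩ : ∃ x : A, x = asmU (Equiv.subLeft (1 : ZMod (2 * N)))
    (Equiv.neg (ZMod (2 * N))) (baseFam y s') c w := ⟨_, rfl⟩
  rw [← hxdef] at hfin hux
  have hid : u * φ f - ψ f * u = -(ψ f * x - x * φ f) + (u - x) * φ f - ψ f * (u - x) := by
    noncomm_ring
  rw [hid]
  have hnφ : ‖φ f‖ ≤ M := (hom_norm_le' φ f).trans (hMF f hf)
  have hnψ : ‖ψ f‖ ≤ M := (hom_norm_le' ψ f).trans (hMF f hf)
  have hb1 : ‖(u - x) * φ f‖ ≤ ε / (8 * M) * M :=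
    (norm_mul_le _ _).trans (mul_le_mul hux hnφ (norm_nonneg _) (by positivity))
  have hb2 : ‖ψ f * (u - x)‖ ≤ M * (ε / (8 * M)) :=
    (norm_mul_le _ _).trans (mul_le_mul hnψ hux (norm_nonneg _) (by linarith))
  have hb3 : ε / (8 * M) * M = ε / 8 := by field_simp
  refine (norm_sub_le _ _).trans ?_
  refine (add_le_add (norm_add_le _ _) le_rfl).trans ?_
  rw [norm_neg]
  rw [mul_comm M] at hb2
  linarith

end Pool.Agent.Helper44.FP
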