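import Pool.Agent.Helper44.FP.Stmts
import Pool.Agent.Helper44.FP.Lib

namespace Pool.Agent.Helper44.FP

open scoped Topology

universe u v

theorem INT_proof : ST_INT.{u} := by
  intro A _ _ _ s y P S ω hy hP hS h1 h2 h3
  have hω : 0 ≤ ω := (norm_nonneg _).trans h1
  have e : star (P * s - s * S) * (P * s - s * S)
      = (star s * (P * P) * s - y * (S * S) * y)
        - (star s * P * s - y * S * y) * S - S * (star s * P * s - y * S * y)
        + S * (star s * s - y * y) * S + (y * S - S * y) * star (y * S - S * y) := by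
    rw [star_sub, star_sub, star_mul, star_mul, star_mul, star_mul, hP.star_eq, hS.star_eq,
      hy.star_eq]
    noncomm_ring
  have hn : ‖P * s - s * S‖ ^ 2 = ‖star (P * s - s * S) * (P * s - s * S)‖ := by
    rw [sq, CStarRing.norm_star_mul_self]
  rw [hn, e]
  have b1 : ‖(star s * P * s - y * S * y) * S‖ ≤ ω * ‖S‖ :=
    (norm_mul_le _ _).trans (mul_le_mul_of_nonneg_right h2 (norm_nonneg _))
  have b2 : ‖S * (star s * P * s - y * S * y)‖ ≤ ‖S‖ * ω :=
    (norm_mul_le _ _).trans (mul_le_mul_of_nonneg_left h2 (norm_nonneg _))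
  have b3 : ‖S * (star s * s - y * y) * S‖ ≤ ‖S‖ * ω * ‖S‖ := by
    refine (norm_mul_le _ _).trans (mul_le_mul_of_nonneg_right ?_ (norm_nonneg _))
    exact (norm_mul_le _ _).trans (mul_le_mul_of_nonneg_left h1 (norm_nonneg _))
  have b4 : ‖(y * S - S * y) * star (y * S - S * y)‖ ≤ ‖y * S - S * y‖ ^ 2 := by
    refine (norm_mul_le _ _).trans ?_
    rw [norm_star, sq]
  have tri : ∀ x1 x2 x3 x4 x5 : A, ‖x1 - x2 - x3 + x4 + x5‖
      ≤ ‖x1‖ + ‖x2‖ + ‖x3‖ + ‖x4‖ + ‖x5‖ := by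
    intro x1 x2 x3 x4 x5
    linarith [norm_add_le (x1 - x2 - x3 + x4) x5, norm_add_le (x1 - x2 - x3) x4,
      norm_sub_le (x1 - x2) x3, norm_sub_le x1 x2]
  refine (tri _ _ _ _ _).trans ?_
  nlinarith

end Pool.Agent.Helper44.FP
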