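import Pool.Agent.Helper44.FP.Stmts

namespace Pool.Agent.Helper44.FP

open scoped Topology

universe u v

/-- values of the chain of homomorphisms on a fixed function: `a i` are the values of
`φ ∘ h_i`, `b i` those of `ψ ∘ h_i`. -/
noncomputable def chPhi {A : Type u} (N : ℕ) (a b : ℕ → A) (k : ZMod (2 * N)) : A :=
  if k.val ≤ N then a k.val else b (2 * N - k.val)

noncomputable def chPsi {A : Type u} (N : ℕ) (a b : ℕ → A) (k : ZMod (2 * N)) : A :=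
  if k = 0 then b 0 else chPhi N a b k

/-- CYC: the combinatorics of the cyclic chain. -/
def ST_CYC : Prop := ∀ (A : Type u) [CStarAlgebra A] (N : ℕ), 0 < N →
    ∀ (a b : ℕ → A) (c : A) (ω θ : ℝ),
    (∀ i, i < N → ‖a (i + 1) - a i‖ ≤ ω) → (∀ i, i < N → ‖b (i + 1) - b i‖ ≤ ω) → a N = b N →
    (∀ i, i ≤ N → ‖c * (b i - a i)‖ ≤ θ) →
    (∀ k : ZMod (2 * N), ‖chPsi N a b (k + 1) - chPhi N a b k‖ ≤ ω) ∧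
    (∃ W : ZMod (2 * N) → A, (∀ k, ‖W k‖ ≤ ω) ∧
      ∀ k, ‖c * (chPsi N a b (1 - k) - chPhi N a b k - W k)‖ ≤ θ) ∧
    (∀ k : ZMod (2 * N), ‖c * (chPsi N a b (-k) - chPhi N a b k)‖ ≤ θ)

/-- CUT: the functions of `e` used in the assembly. -/
def ST_CUT : Prop := ∀ (A : Type u) [CStarAlgebra A] [PartialOrder A] [StarOrderedRing A]
    (M ε : ℝ), 0 < ε → ∃ δ : ℝ, 0 < δ ∧ ∀ e : A, 0 ≤ e → e ≤ 1 →
      ∃ y z c w : A, 0 ≤ y ∧ y ≤ 1 ∧ 0 ≤ z ∧ z ≤ 1 ∧ 0 ≤ c ∧ c ≤ 1 ∧ 0 ≤ w ∧ w ≤ 1 ∧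
        y * z = y ∧ y * w = w ∧ c * w = w * c ∧ c * c + w * w = 1 ∧
        (∀ t : A → ℝ, IsTr t → t z ≤ 4 * t e) ∧
        (∀ b : A, ‖b‖ ≤ M → ‖e * b - b * e‖ ≤ δ → ‖y * b - b * y‖ ≤ ε ∧ ‖z * b - b * z‖ ≤ ε ∧
          ‖(w * w) * b - b * (w * w)‖ ≤ ε ∧ ‖(c * w) * b - b * (c * w)‖ ≤ ε) ∧
        (∀ D : A, ‖c * D‖ ≤ 2 * ‖(1 - e) * D‖ ∧ ‖(1 - y) * D‖ ≤ 2 * ‖(1 - e) * D‖)

end Pool.Agent.Helper44.FP
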