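import Pool.Agent.Helper44.FP.Stmts
import Pool.Agent.Helper44.FP.Lib

namespace Pool.Agent.Helper44.FP

open scoped Topology

universe u v

theorem unitary_norm_le {A : Type*} [CStarAlgebra A] {u : A} (hu : u ∈ unitary A) : ‖u‖ ≤ 1 := by
  rcases subsingleton_or_nontrivial A with h | h
  · rw [Subsingleton.elim u 0, norm_zero]
    exact zero_le_one
  · exact (CStarRing.norm_of_mem_unitary hu).le

/-- conjugation of a real homomorphism by a unitary: `f ↦ v* ψ(f) v` -/
noncomputable def conjHom {A : Type*} [CStarAlgebra A] {X : Type*} [TopologicalSpace X]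
    [CompactSpace X] (v : A) (hv : v ∈ unitary A) (ψ : C(X, ℝ) →⋆ₐ[ℝ] A) : C(X, ℝ) →⋆ₐ[ℝ] A where
  toFun f := star v * ψ f * v
  map_one' := by rw [map_one, mul_one, Unitary.star_mul_self_of_mem hv]
  map_mul' f g := by
    rw [map_mul]
    have h := Unitary.mul_star_self_of_mem hv
    calc star v * (ψ f * ψ g) * v = star v * ψ f * 1 * ψ g * v := by noncomm_ring
      _ = star v * ψ f * (v * star v) * ψ g * v := by rw [h]
      _ = star v * ψ f * v * (star v * ψ g * v) := by noncomm_ring
  map_zero' := by simp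
  map_add' f g := by rw [map_add]; noncomm_ring
  commutes' r := by
    have h := Unitary.star_mul_self_of_mem hv
    rw [AlgHomClass.commutes, Algebra.algebraMap_eq_smul_one]
    simp [h]
  map_star' f := by
    rw [map_star, star_mul, star_mul, star_star, mul_assoc]

theorem conjHom_apply {A : Type*} [CStarAlgebra A] {X : Type*} [TopologicalSpace X]
    [CompactSpace X] (v : A) (hv : v ∈ unitary A) (ψ : C(X, ℝ) →⋆ₐ[ℝ] A) (f : C(X, ℝ)) :
    conjHom v hv ψ f = star v * ψ f * v := rfl

theorem U_aux (hEE : ST_EE.{u, v}) (hCH : ST_CHAIN.{u, v}) : ST_U.{u, v} := by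
  intro A _ _ _ X _ _ hperf H p h0 h1 t ht hWC φ ψ hφ h2 F ε hε
  obtain ⟨θ, L, hθ, hch⟩ := hCH A X hperf H p h0 h1 t ht hWC φ hφ F ε hε
  obtain ⟨HH, η, hη, hee⟩ := hEE A X L θ hθ
  obtain ⟨v, hv, hv2⟩ := h2 HH η hη
  have hvv := Unitary.star_mul_self_of_mem hv
  have hvv' := Unitary.mul_star_self_of_mem hv
  obtain ⟨e, he0, he1, hte, heL⟩ := hee t ht φ (conjHom v hv ψ) (by
    intro h hh
    have e1 : φ h - conjHom v hv ψ h = star v * (v * φ h * star v - ψ h) * v := by
      rw [conjHom_apply]
      calc φ h - star v * ψ h * v = (1 : A) * φ h * 1 - star v * ψ h * v := by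
            rw [one_mul, mul_one]
        _ = (star v * v) * φ h * (star v * v) - star v * ψ h * v := by rw [hvv]
        _ = star v * (v * φ h * star v - ψ h) * v := by noncomm_ring
    have e2 : star (φ h - conjHom v hv ψ h) * (φ h - conjHom v hv ψ h)
        = star v * (star (v * φ h * star v - ψ h) * (v * φ h * star v - ψ h)) * v := by
      rw [e1, star_mul, star_mul, star_star]
      calc star v * (star (v * φ h * star v - ψ h) * v) * (star v * (v * φ h * star v - ψ h) * v)
          = star v * star (v * φ h * star v - ψ h) * (v * star v)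
            * (v * φ h * star v - ψ h) * v := by noncomm_ring
        _ = _ := by rw [hvv']; noncomm_ring
    rw [e2, ht.cyc, ht.cyc, hvv', one_mul]
    exact hv2 h hh)
  obtain ⟨u, hu, huF⟩ := hch (conjHom v hv ψ) e he0 he1 hte heL
  refine ⟨v * u, mul_mem hv hu, ?_⟩
  intro f hf
  have huu := Unitary.mul_star_self_of_mem hu
  have e3 : v * u * φ f * star (v * u) - ψ f
      = v * (u * φ f - conjHom v hv ψ f * u) * (star u * star v) := by
    rw [conjHom_apply, star_mul]
    have e4 : v * (star v * ψ f * v * u) * (star u * star v) = ψ f := by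
      calc v * (star v * ψ f * v * u) * (star u * star v)
          = (v * star v) * ψ f * v * (u * star u) * star v := by noncomm_ring
        _ = ψ f * (v * star v) := by
          rw [huu]
          nth_rewrite 1 [hvv']
          rw [one_mul, mul_one, mul_assoc]
        _ = ψ f := by rw [hvv', mul_one]
    rw [mul_sub, sub_mul, e4]
    noncomm_ring
  rw [e3]
  have hn1 : ‖v‖ ≤ 1 := unitary_norm_le hv
  have hn2 : ‖star u * star v‖ ≤ 1 :=
    unitary_norm_le (mul_mem (Unitary.star_mem hu) (Unitary.star_mem hv))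
  calc ‖v * (u * φ f - conjHom v hv ψ f * u) * (star u * star v)‖
      ≤ ‖v * (u * φ f - conjHom v hv ψ f * u)‖ * ‖star u * star v‖ := norm_mul_le _ _
    _ ≤ (‖v‖ * ‖u * φ f - conjHom v hv ψ f * u‖) * ‖star u * star v‖ := by
        gcongr
        exact norm_mul_le _ _
    _ ≤ (1 * ε) * 1 := by
        gcongr
        exact huF f hf
    _ = ε := by ring

end Pool.Agent.Helper44.FP
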