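import Pool.Agent.Helper44.FP.Defs

namespace Pool.Agent.Helper44.FP

open scoped Topology

universe u v

/-- ROW: Cauchy-Schwarz for finite sums. -/
def ST_ROW : Prop := ∀ (A : Type u) [CStarAlgebra A] [PartialOrder A] [StarOrderedRing A]
    (J : ℕ) (a b : Fin J → A),
    ‖∑ i, star (a i) * b i‖ ^ 2 ≤ ‖∑ i, star (a i) * a i‖ * ‖∑ i, star (b i) * b i‖

/-- COMM: continuous functional calculus preserves almost commutation. -/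
def ST_COMM : Prop := ∀ (A : Type u) [CStarAlgebra A] [PartialOrder A] [StarOrderedRing A]
    (h : ℝ → ℝ), Continuous h → ∀ M : ℝ, ∀ ε : ℝ, 0 < ε → ∃ δ : ℝ, 0 < δ ∧
      ∀ e b : A, 0 ≤ e → e ≤ 1 → ‖b‖ ≤ M → ‖e * b - b * e‖ ≤ δ → ‖cfc h e * b - b * cfc h e‖ ≤ ε

/-- PART: quadratic partition of unity with small oscillation. -/
def ST_PART : Prop := ∀ (X : Type v) [MetricSpace X] [CompactSpace X] (G : Finset C(X, ℝ)) (ω : ℝ),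
    0 < ω → ∃ (J : ℕ) (q : Fin J → C(X, ℝ)) (x : Fin J → X),
      (∀ j, 0 ≤ q j ∧ q j ≤ 1) ∧ ∑ j, q j ^ 2 = 1 ∧
      ∀ j, ∀ f ∈ G, ∀ z, q j z ≠ 0 → |f z - f (x j)| ≤ ω

/-- BUMP: pairwise disjoint bumps close to given points. -/
def ST_BUMP : Prop := ∀ (X : Type v) [MetricSpace X] [CompactSpace X], (∀ x : X, (𝓝[≠] x).NeBot) →
    ∀ (G : Finset C(X, ℝ)) (ω : ℝ), 0 < ω → ∀ (J m : ℕ) (x : Fin J → X),
    ∃ κ κp : Fin m → Fin J → C(X, ℝ),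
      (∀ k j, 0 ≤ κ k j ∧ κ k j ≤ 1 ∧ κ k j ≠ 0 ∧ 0 ≤ κp k j ∧ κp k j ≤ 1 ∧
        κp k j * κ k j = κ k j) ∧
      (∀ k j, ∀ f ∈ G, ∀ z, κp k j z ≠ 0 → |f z - f (x j)| ≤ ω) ∧
      (∀ k j k' j', (k, j) ≠ (k', j') → κp k j * κp k' j' = 0)

/-- EE: a small positive element carrying the difference of two homomorphisms close in 2-norm. -/
def ST_EE : Prop := ∀ (A : Type u) [CStarAlgebra A] [PartialOrder A] [StarOrderedRing A]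
    (X : Type v) [MetricSpace X] [CompactSpace X] (G : Finset C(X, ℝ)) (θ : ℝ), 0 < θ →
    ∃ (H : Finset C(X, ℝ)) (η : ℝ), 0 < η ∧ ∀ t : A → ℝ, IsTr t →
      ∀ φ ψ : C(X, ℝ) →⋆ₐ[ℝ] A,
        (∀ h ∈ H, t (star (φ h - ψ h) * (φ h - ψ h)) ≤ η) →
        ∃ e : A, 0 ≤ e ∧ e ≤ 1 ∧ t e ≤ θ ∧ ∀ f ∈ G, ‖e * φ f - φ f * e‖ ≤ θ ∧
          ‖e * ψ f - ψ f * e‖ ≤ θ ∧ ‖(1 - e) * (φ f - ψ f)‖ ≤ θ

/-- ABS: absorption of finitely many homomorphisms at a small corner. -/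
def ST_ABS : Prop := ∀ (A : Type u) [CStarAlgebra A] [PartialOrder A] [StarOrderedRing A]
    (X : Type v) [MetricSpace X] [CompactSpace X], (∀ x : X, (𝓝[≠] x).NeBot) →
    ∀ t : A → ℝ, IsTr t → WC t → ∀ φ : C(X, ℝ) →⋆ₐ[ℝ] A,
    (∀ f, 0 ≤ f → f ≠ 0 → 0 < t (φ f)) →
    ∀ (G : Finset C(X, ℝ)) (ω : ℝ), 0 < ω → ∀ m : ℕ,
    ∃ (θ : ℝ) (L : Finset C(X, ℝ)), 0 < θ ∧
      ∀ y z : A, 0 ≤ y → y ≤ 1 → 0 ≤ z → z ≤ 1 → y * z = y → t z ≤ θ →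
        (∀ h ∈ L, ‖z * φ h - φ h * z‖ ≤ θ) →
        ∀ σ : Fin m → (C(X, ℝ) →⋆ₐ[ℝ] A), ∃ s : Fin m → A,
          (∀ i j, i ≠ j → star (s i) * s j = 0) ∧ (∀ i, ‖y * s i‖ ≤ ω) ∧
          ∀ i, ∀ f ∈ G, ‖star (s i) * φ f * s i - y * σ i f * y‖ ≤ ω

/-- INT: from compressions to intertwining. -/
def ST_INT : Prop := ∀ (A : Type u) [CStarAlgebra A] [PartialOrder A] [StarOrderedRing A]
    (s y P S : A) (ω : ℝ), IsSelfAdjoint y → IsSelfAdjoint P → IsSelfAdjoint S →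
    ‖star s * s - y * y‖ ≤ ω → ‖star s * P * s - y * S * y‖ ≤ ω →
    ‖star s * (P * P) * s - y * (S * S) * y‖ ≤ ω →
    ‖P * s - s * S‖ ^ 2 ≤ ω * (1 + ‖S‖) ^ 2 + ‖y * S - S * y‖ ^ 2

/-- NOR: norm of a sum of almost orthogonal pieces. -/
def ST_NOR : Prop := ∀ (A : Type u) [CStarAlgebra A] [PartialOrder A] [StarOrderedRing A]
    (I : Type) [Fintype I] [DecidableEq I] (s a : I → A) (ρ : Equiv.Perm I) (ω θ : ℝ), 0 ≤ ω →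
    (∀ k, ‖s k‖ ≤ 2) → (∀ j k, j ≠ k → ‖star (s j) * s k‖ ≤ θ) → (∀ k, ‖a k‖ ≤ ω) →
    (Fintype.card I : ℝ) ^ 2 * θ ≤ 1 → ‖∑ k, s (ρ k) * a k * star (s k)‖ ≤ 5 * ω

/-- ASMU: the assembled element is almost unitary. -/
def ST_ASMU : Prop := ∀ (A : Type u) [CStarAlgebra A] [PartialOrder A] [StarOrderedRing A]
    (I : Type) [Fintype I] [DecidableEq I] (ρ₁ ρ₂ : Equiv.Perm I) (s : I → A) (y c w : A) (θ : ℝ),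
    (∀ k, ρ₁ (ρ₁ k) = k) → (∀ k, ρ₂ (ρ₂ k) = k) →
    IsSelfAdjoint y → IsSelfAdjoint c → IsSelfAdjoint w → c * w = w * c → c * c + w * w = 1 →
    y * w = w → ‖c‖ ≤ 1 → ‖w‖ ≤ 1 →
    (∀ k, ‖s k‖ ≤ 2) → (∀ j k, j ≠ k → ‖star (s j) * s k‖ ≤ θ) →
    (∀ k, ‖star (s k) * s k - y * y‖ ≤ θ) →
    ‖star (asmU ρ₁ ρ₂ s c w) * asmU ρ₁ ρ₂ s c w - 1‖ ≤ 64 * (Fintype.card I : ℝ) ^ 4 * θ ∧
    ‖asmU ρ₁ ρ₂ s c w * star (asmU ρ₁ ρ₂ s c w) - 1‖ ≤ 64 * (Fintype.card I : ℝ) ^ 4 * θ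

/-- ASMI: the assembled element almost intertwines `P` and `Q`. -/
def ST_ASMI : Prop := ∀ (A : Type u) [CStarAlgebra A] [PartialOrder A] [StarOrderedRing A]
    (I : Type) [Fintype I] [DecidableEq I] (ρ₁ ρ₂ : Equiv.Perm I) (o : I) (s Φ Ψ W : I → A)
    (c w P Q : A) (ω θ : ℝ),
    IsSelfAdjoint P → IsSelfAdjoint Q → (∀ k, IsSelfAdjoint (Φ k)) →
    IsSelfAdjoint (s o) → IsSelfAdjoint c → IsSelfAdjoint w → c * w = w * c →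
    ‖c‖ ≤ 1 → ‖w‖ ≤ 1 → ‖s o‖ ≤ 1 →
    (∀ k, ‖s k‖ ≤ 2) → (∀ j k, j ≠ k → ‖star (s j) * s k‖ ≤ θ) →
    (Fintype.card I : ℝ) ^ 2 * θ ≤ 1 →
    (∀ k, k ≠ o → Ψ k = Φ k) → Φ o = P → Ψ o = Q →
    (∀ k, ‖P * s k - s k * Φ k‖ ≤ θ) → (∀ k, ‖Q * s k - s k * Ψ k‖ ≤ θ) →
    (∀ k, ‖(w * w) * Ψ k - Ψ k * (w * w)‖ ≤ θ) → (∀ k, ‖(c * w) * Ψ k - Ψ k * (c * w)‖ ≤ θ) →
    ‖(Q - P) - s o * (Q - P) * s o‖ ≤ θ → ‖(Q - P) - (w * w) * (Q - P)‖ ≤ θ →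
    (∀ k, ‖Ψ (ρ₁ (ρ₂ k)) - Φ k‖ ≤ ω) →
    (∀ k, ‖W k‖ ≤ ω) → (∀ k, ‖c * (Ψ (ρ₁ k) - Φ k - W k)‖ ≤ θ) →
    (∀ k, ‖c * (Ψ (ρ₂ k) - Φ k)‖ ≤ θ) →
    ‖Q * asmU ρ₁ ρ₂ s c w - asmU ρ₁ ρ₂ s c w * P‖ ≤ 10 * ω + 50 * (Fintype.card I : ℝ) * θ

/-- POLAR: an almost unitary is close to a unitary. -/
def ST_POLAR : Prop := ∀ (A : Type u) [CStarAlgebra A] [PartialOrder A] [StarOrderedRing A]
    (ε : ℝ), 0 < ε → ∃ δ : ℝ, 0 < δ ∧ ∀ x : A, ‖star x * x - 1‖ ≤ δ → ‖x * star x - 1‖ ≤ δ →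
      ∃ w ∈ unitary A, ‖w - x‖ ≤ ε

/-- CHAIN: the pure norm statement (all the approximations with respect to `e` are given). -/
def ST_CHAIN : Prop := ∀ (A : Type u) [CStarAlgebra A] [PartialOrder A] [StarOrderedRing A]
    (X : Type v) [MetricSpace X] [CompactSpace X], (∀ x : X, (𝓝[≠] x).NeBot) →
    ∀ (H : C(unitInterval × X, X)) (p : X), (∀ x, H (0, x) = x) → (∀ x, H (1, x) = p) →
    ∀ t : A → ℝ, IsTr t → WC t → ∀ φ : C(X, ℝ) →⋆ₐ[ℝ] A,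
    (∀ f, 0 ≤ f → f ≠ 0 → 0 < t (φ f)) →
    ∀ (F : Finset C(X, ℝ)) (ε : ℝ), 0 < ε → ∃ (θ : ℝ) (L : Finset C(X, ℝ)), 0 < θ ∧
      ∀ ψ : C(X, ℝ) →⋆ₐ[ℝ] A, ∀ e : A, 0 ≤ e → e ≤ 1 → t e ≤ θ →
        (∀ f ∈ L, ‖e * φ f - φ f * e‖ ≤ θ ∧ ‖e * ψ f - ψ f * e‖ ≤ θ ∧
          ‖(1 - e) * (φ f - ψ f)‖ ≤ θ) →
        ∃ u ∈ unitary A, ∀ f ∈ F, ‖u * φ f - ψ f * u‖ ≤ ε

/-- U: 2-norm approximate unitary equivalence implies norm approximate unitary equivalence. -/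
def ST_U : Prop := ∀ (A : Type u) [CStarAlgebra A] [PartialOrder A] [StarOrderedRing A]
    (X : Type v) [MetricSpace X] [CompactSpace X], (∀ x : X, (𝓝[≠] x).NeBot) →
    ∀ (H : C(unitInterval × X, X)) (p : X), (∀ x, H (0, x) = x) → (∀ x, H (1, x) = p) →
    ∀ t : A → ℝ, IsTr t → WC t → ∀ φ ψ : C(X, ℝ) →⋆ₐ[ℝ] A,
    (∀ f, 0 ≤ f → f ≠ 0 → 0 < t (φ f)) → TwoEq t φ ψ → NormEq φ ψ

/-- COMB: almost partition into disjoint pieces with small oscillation. -/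
def ST_COMB : Prop := ∀ (X : Type v) [TopologicalSpace X] [CompactSpace X] (μ : C(X, ℝ) → ℝ),
    (∀ f g, μ (f + g) = μ f + μ g) → (∀ (r : ℝ) f, μ (r • f) = r * μ f) →
    (∀ f, 0 ≤ f → 0 ≤ μ f) → μ 1 = 1 →
    ∀ (F : Finset C(X, ℝ)) (ε : ℝ), 0 < ε →
    ∃ (J : ℕ) (g : Fin J → C(X, ℝ)) (a : C(X, ℝ) → Fin J → ℝ),
      (∀ j, 0 ≤ g j ∧ g j ≤ 1) ∧ (∀ i j, i ≠ j → g i * g j = 0) ∧ 1 - ε ≤ μ (∑ j, g j) ∧
      ∀ f ∈ F, ∀ j, |a f j| ≤ ‖f‖ ∧ ∀ x, g j x ≠ 0 → |f x - a f j| ≤ ε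

/-- VARA: the second variation inequality at an almost maximal point. -/
def ST_VARA : Prop := ∀ (A : Type u) [CStarAlgebra A] [PartialOrder A] [StarOrderedRing A]
    (t : A → ℝ), IsTr t → ∀ (J : ℕ) (P Q : Fin J → A),
    (∀ j, 0 ≤ P j ∧ P j ≤ 1) → (∀ j, 0 ≤ Q j ∧ Q j ≤ 1) → ∀ κ : ℝ, 0 < κ →
    ∃ u ∈ unitary A, ∀ h : A, IsSelfAdjoint h → ‖h‖ ≤ 2 →
      ∑ j, (2 * t ((u * P j * star u) * h * Q j * h)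
        - t (((u * P j * star u) * Q j + Q j * (u * P j * star u)) * (h * h))) ≤ κ

/-- VARB: the inequality obtained from averaging. -/
def ST_VARB : Prop := ∀ (A : Type u) [CStarAlgebra A] [PartialOrder A] [StarOrderedRing A]
    (t : A → ℝ), IsTr t → MixAv t → ∀ (J : ℕ) (P Q : Fin J → A),
    (∀ j, 0 ≤ P j ∧ P j ≤ 1) → (∀ j, 0 ≤ Q j ∧ Q j ≤ 1) →
    (∀ i j, i ≠ j → P i * P j = 0) → (∀ i j, i ≠ j → Q i * Q j = 0) → ∀ κ : ℝ, 0 < κ →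
    ∃ u ∈ unitary A, ∀ i, t (u * P i * star u * Q i) ^ 2 + t (P i * P i) * t (Q i * Q i) ≤
      t (u * P i * star u * Q i) * (t (P i) + t (Q i)) + κ

/-- VARC: 2-norm uniqueness from averaging. -/
def ST_VARC : Prop := ∀ (A : Type u) [CStarAlgebra A] [PartialOrder A] [StarOrderedRing A]
    (t : A → ℝ), IsTr t → MixAv t → ∀ (X : Type v) [TopologicalSpace X] [CompactSpace X]
    (φ ψ : C(X, ℝ) →⋆ₐ[ℝ] A), (∀ f, t (φ f) = t (ψ f)) → TwoEq t φ ψ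

/-- UNIQ: a unique tracial state has the averaging property. -/
def ST_UNIQ : Prop := ∀ (A : Type u) [CStarAlgebra A] [PartialOrder A] [StarOrderedRing A]
    (t : A → ℝ), IsTr t → (∀ t' : A → ℝ, IsTr t' → t' = t) → MixAv t

end Pool.Agent.Helper44.FP
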