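import Pool.Agent.Helper44.FP.Defs2
import Pool.Agent.Helper44.FP.Stmts

namespace Pool.Agent.Helper44.FP

open scoped Topology

universe u v

/-- CORE: the general theorem behind both questions. -/
def ST_CORE : Prop := ∀ (A : Type u) [CStarAlgebra A] [PartialOrder A] [StarOrderedRing A]
    (τ : A →ₗ[ℂ] ℂ), IsTracialState τ → (∀ a : A, (τ (star a * a)).re = 0 → a = 0) →
    WC (fun a : A => (τ a).re) → MixAv (fun a : A => (τ a).re) →
    ∀ (X : Type v) [MetricSpace X] [CompactSpace X] [ContractibleSpace X]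
    (φ ψ : C(X, ℂ) →⋆ₐ[ℂ] A), Function.Injective φ → Function.Injective ψ →
    (∀ f, τ (φ f) = τ (ψ f)) → ApproxUnitaryEquiv φ ψ

/-- FAITH: a tracial state of a simple C*-algebra is faithful. -/
def ST_FAITH : Prop := ∀ (A : Type u) [CStarAlgebra A],
    (∀ I : TwoSidedIdeal A, IsClosed (I : Set A) → I = ⊥ ∨ I = ⊤) →
    ∀ τ : A →ₗ[ℂ] ℂ, IsTracialState τ → ∀ a : A, (τ (star a * a)).re = 0 → a = 0

/-- BRIDGE: tracial states and their real parts. -/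
def ST_BRIDGE : Prop := ∀ (A : Type u) [CStarAlgebra A],
    (∀ τ : A →ₗ[ℂ] ℂ, IsTracialState τ → IsTr (fun a : A => (τ a).re)) ∧
    (∀ t : A → ℝ, IsTr t → ∃ τ : A →ₗ[ℂ] ℂ, IsTracialState τ ∧ ∀ a, (τ a).re = t a)

/-- WCS: comparison by the trace implies weak comparison. -/
def ST_WCS : Prop := ∀ (A : Type u) [CStarAlgebra A] [PartialOrder A] [StarOrderedRing A]
    (τ : A →ₗ[ℂ] ℂ), IsTracialState τ →
    (∀ a b : A, IsPos a → IsPos b → dimTau τ a < dimTau τ b → CuntzLE a b) →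
    WC (fun a : A => (τ a).re)

/-- The answer to Q2. -/
def ST_Q2 : Prop := ∀ (A : Type u) [CStarAlgebra A],
    (∀ I : TwoSidedIdeal A, IsClosed (I : Set A) → I = ⊥ ∨ I = ⊤) →
    ∀ τ : A →ₗ[ℂ] ℂ, IsTracialState τ → (∀ τ' : A →ₗ[ℂ] ℂ, IsTracialState τ' → τ' = τ) →
    (∀ a b : A, IsPos a → IsPos b → dimTau τ a < dimTau τ b → CuntzLE a b) →
    ∀ (X : Type v) [MetricSpace X] [CompactSpace X] [ContractibleSpace X]
    (φ ψ : C(X, ℂ) →⋆ₐ[ℂ] A), Function.Injective φ → Function.Injective ψ →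
    (∀ f, τ (φ f) = τ (ψ f)) → ApproxUnitaryEquiv φ ψ

/-- GNSN: norm estimate from a faithful trace and a dense subset. -/
def ST_GNSN : Prop := ∀ (A : Type u) [CStarAlgebra A] [PartialOrder A] [StarOrderedRing A]
    (t : A → ℝ), IsTr t → (∀ a : A, t (star a * a) = 0 → a = 0) →
    ∀ (S : Set A), Dense S → ∀ (x : A) (M : ℝ), 0 ≤ M →
    (∀ y ∈ S, ∀ z ∈ S, t (star z * x * y) ≤ M * √(t (star y * y)) * √(t (star z * z))) → ‖x‖ ≤ M

/-- WCD: weak comparison from the free norm estimate. -/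
def ST_WCD : Prop := ∀ (A : Type u) [CStarAlgebra A] [PartialOrder A] [StarOrderedRing A]
    (t : A → ℝ), IsTr t →
    (∀ P Q : A, IsSelfAdjoint P → IsSelfAdjoint Q → ‖P‖ ≤ 1 → ‖Q‖ ≤ 1 → ∀ κ : ℝ, 0 < κ →
      ∃ w ∈ unitary A, ‖P * (w * Q * star w - t Q • (1 : A)) * P‖ ≤ 8 * √(t (P * P)) + κ) →
    WC t

/-- words with letters in copies from the set `S` -/
def wordSet {D : Type u} [CStarAlgebra D] (ι : ℕ → (C(unitInterval, ℂ) →⋆ₐ[ℂ] D))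
    (S : Set ℕ) : Set D :=
  {d | ∃ L : List (ℕ × C(unitInterval, ℂ)), L ≠ [] ∧ L.IsChain (fun a b => a.1 ≠ b.1) ∧
    (∀ a ∈ L, a.1 ∈ S ∧ ∫ x, a.2 x = 0) ∧ d = (L.map (fun a => ι a.1 a.2)).prod}

/-- FW: the algebra generated by the copies in `S` is spanned by `1` and the words. -/
def ST_FW : Prop := ∀ (D : Type u) [CStarAlgebra D] (ι : ℕ → (C(unitInterval, ℂ) →⋆ₐ[ℂ] D))
    (S : Set ℕ) (x : D), x ∈ StarAlgebra.adjoin ℂ (⋃ k ∈ S, Set.range (ι k)) →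
    ∃ (c : ℂ) (y : D), y ∈ Submodule.span ℂ (wordSet ι S) ∧ x = c • (1 : D) + y

/-- FNW: free norm estimate. -/
def ST_FN : Prop := ∀ (D : Type u) [CStarAlgebra D] [PartialOrder D] [StarOrderedRing D]
    (τ : D →ₗ[ℂ] ℂ) (ι : ℕ → (C(unitInterval, ℂ) →⋆ₐ[ℂ] D)), IsFreePower D τ ι →
    ∀ P Q : D, IsSelfAdjoint P → IsSelfAdjoint Q → ‖P‖ ≤ 1 → ‖Q‖ ≤ 1 → ∀ κ : ℝ, 0 < κ →
      ∃ w ∈ unitary D, ‖P * (w * Q * star w - (τ Q).re • (1 : D)) * P‖ ≤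
        8 * √((τ (P * P)).re) + κ

/-- MIXD: averaging property of the free power. -/
def ST_MIXD : Prop := ∀ (D : Type u) [CStarAlgebra D] [PartialOrder D] [StarOrderedRing D]
    (τ : D →ₗ[ℂ] ℂ) (ι : ℕ → (C(unitInterval, ℂ) →⋆ₐ[ℂ] D)), IsFreePower D τ ι →
    MixAv (fun a : D => (τ a).re)

/-- The answer to Q1. -/
def ST_Q1 : Prop := ∀ (D : Type u) [CStarAlgebra D] (τ : D →ₗ[ℂ] ℂ)
    (ι : ℕ → (C(unitInterval, ℂ) →⋆ₐ[ℂ] D)), IsFreePower D τ ι →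
    ∀ (X : Type v) [MetricSpace X] [CompactSpace X] [ContractibleSpace X]
    (φ ψ : C(X, ℂ) →⋆ₐ[ℂ] D), Function.Injective φ → Function.Injective ψ →
    (∀ f, τ (φ f) = τ (ψ f)) → ApproxUnitaryEquiv φ ψ

end Pool.Agent.Helper44.FP
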