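import Pool.Agent.Helper44.FP.Stmts2
import Pool.Agent.Helper44.FP.Stmts3
import Pool.Agent.Helper44.FP.Chain
import Pool.Agent.Helper44.FP.Asmu
import Pool.Agent.Helper44.FP.Int
import Pool.Agent.Helper44.FP.UU
import Pool.Agent.Helper37.FP.UNIQ
import Pool.Agent.Helper77.FP.CUT
import Pool.Agent.Helper78.FP.ABS
import Pool.Agent.Helper78.FP.CORE
import Pool.Agent.Helper78.FP.WCS
import Pool.Agent.Helper79.FP.FN
import Pool.Agent.Helper79.FP.GNSN
import Pool.Agent.Helper79.FP.PART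
import Pool.Agent.Helper81.FP.VARB
import Pool.Agent.Helper96.FP.BRIDGE
import Pool.Agent.Helper96.FP.FW
import Pool.Agent.Helper96.FP.MIXD

namespace Pool.Agent.Helper44.FP

universe u v

theorem Q2_aux (hCORE : ST_CORE.{u, v}) (hFAITH : ST_FAITH.{u}) (hBR : ST_BRIDGE.{u})
    (hWCS : ST_WCS.{u}) (hUNIQ : ST_UNIQ.{u}) : ST_Q2.{u, v} := by
  intro A _ hsimple τ hτ huniq hcomp X _ _ _ φ ψ hφ hψ h
  let _ := CStarAlgebra.spectralOrder A
  let _ := CStarAlgebra.spectralOrderedRing A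
  refine hCORE A τ hτ (hFAITH A hsimple τ hτ) (hWCS A τ hτ hcomp) ?_ X φ ψ hφ hψ h
  apply hUNIQ A _ ((hBR A).1 τ hτ)
  intro t' ht'
  obtain ⟨τ', hτ', hre⟩ := (hBR A).2 t' ht'
  have := huniq τ' hτ'
  subst this
  funext a
  exact (hre a).symm

theorem Q1_aux (hCORE : ST_CORE.{u, v}) (hBR : ST_BRIDGE.{u}) (hWCD : ST_WCD.{u})
    (hFN : ST_FN.{u}) (hMIXD : ST_MIXD.{u}) : ST_Q1.{u, v} := by
  intro D _ τ ι hD X _ _ _ φ ψ hφ hψ h
  let _ := CStarAlgebra.spectralOrder D
  let _ := CStarAlgebra.spectralOrderedRing D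
  have hfaith : ∀ a : D, (τ (star a * a)).re = 0 → a = 0 := by
    intro a ha
    have ht := (hBR D).1 τ hD.tracial
    apply hD.gns_faithful
    intro b c
    have h1 : ∀ x : D, τ (x * a) = 0 := by
      intro x
      have h2 : ∀ y : D, (τ (y * a)).re = 0 := by
        intro y
        have h3 := ht.cs (star y) a
        rw [star_star] at h3
        simp only [ha, mul_zero] at h3
        nlinarith [sq_nonneg ((τ (y * a)).re)]
      apply Complex.ext
      · exact h2 x
      · have h4 := h2 (Complex.I • x)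
        rw [smul_mul_assoc, map_smul] at h4
        simpa using h4
    rw [hD.tracial.comm, ← mul_assoc, h1]
  exact hCORE D τ hD.tracial hfaith (hWCD D _ ((hBR D).1 τ hD.tracial) (hFN D τ ι hD))
    (hMIXD D τ ι hD) X φ ψ hφ hψ h

end Pool.Agent.Helper44.FP
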