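import Pool.Agent.Helper44.FP.Nor

namespace Pool.Agent.Helper44.FP

open scoped Topology

universe u v

theorem norm_mul3_le {A : Type u} [NormedRing A] (x y z : A) (a b c : ℝ) (ha : 0 ≤ a) (hb : 0 ≤ b)
    (hx : ‖x‖ ≤ a) (hy : ‖y‖ ≤ b) (hz : ‖z‖ ≤ c) : ‖x * y * z‖ ≤ a * b * c := by
  refine (norm_mul_le _ _).trans ?_
  exact mul_le_mul ((norm_mul_le _ _).trans (mul_le_mul hx hy (norm_nonneg _) ha)) hz
    (norm_nonneg _) (mul_nonneg ha hb)

theorem sum_norm_bound {A : Type u} [NormedRing A] {I : Type} [Fintype I] (f : I → A) (c : ℝ)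
    (h : ∀ k, ‖f k‖ ≤ c) : ‖∑ k, f k‖ ≤ (Fintype.card I : ℝ) * c := by
  refine (norm_sum_le _ _).trans ?_
  refine (Finset.sum_le_sum (fun k _ => h k)).trans ?_
  simp

theorem ASMI_aux (hNOR : ST_NOR.{u}) : ST_ASMI.{u} := by
  intro A _ _ _ I _ _ ρ₁ ρ₂ o s Φ Ψ W c w P Q ω θ hP hQ hΦ hso hc hw hcw hcn hwn hson hs hst hn
    hΨΦ hΦo hΨo hPs hQs hcomm1 hcomm2 hd1 hd2 hπ hW hρ1 hρ2
  have hθ : 0 ≤ θ := (norm_nonneg _).trans (hPs o)
  have hω : 0 ≤ ω := (norm_nonneg _).trans (hW o)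
  have hcard : (1 : ℝ) ≤ Fintype.card I := by
    have : 0 < Fintype.card I := Fintype.card_pos_iff.mpr ⟨o⟩
    exact_mod_cast this
  have hwwn : ‖w * w‖ ≤ 1 := by
    refine (norm_mul_le _ _).trans ?_
    nlinarith [norm_nonneg w]
  have hcwn : ‖c * w‖ ≤ 1 := by
    refine (norm_mul_le _ _).trans ?_
    nlinarith [norm_nonneg w, norm_nonneg c]
  -- error terms
  have hE : ∀ (j k : I) (a : A), ‖a‖ ≤ 1 → ‖a * Ψ j - Ψ j * a‖ ≤ θ →
      ‖Q * (s j * a * star (s k)) - s j * a * star (s k) * P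
        - s j * (a * (Ψ j - Φ k)) * star (s k)‖ ≤ 8 * θ := by
    intro j k a han hac
    have e1 : star (s k) * P - Φ k * star (s k) = star (P * s k - s k * Φ k) := by
      rw [star_sub, star_mul, star_mul, hP.star_eq, (hΦ k).star_eq]
    have e2 : Q * (s j * a * star (s k)) - s j * a * star (s k) * P
        - s j * (a * (Ψ j - Φ k)) * star (s k)
        = (Q * s j - s j * Ψ j) * a * star (s k) - s j * a * (star (s k) * P - Φ k * star (s k))
          - s j * (a * Ψ j - Ψ j * a) * star (s k) := by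
      noncomm_ring
    rw [e2, e1]
    have b1 : ‖(Q * s j - s j * Ψ j) * a * star (s k)‖ ≤ θ * 1 * 2 :=
      norm_mul3_le _ _ _ _ _ _ hθ zero_le_one (hQs j) han (by rw [norm_star]; exact hs k)
    have b2 : ‖s j * a * star (P * s k - s k * Φ k)‖ ≤ 2 * 1 * θ :=
      norm_mul3_le _ _ _ _ _ _ zero_le_two zero_le_one (hs j) han
        (by rw [norm_star]; exact hPs k)
    have b3 : ‖s j * (a * Ψ j - Ψ j * a) * star (s k)‖ ≤ 2 * θ * 2 :=
      norm_mul3_le _ _ _ _ _ _ zero_le_two hθ (hs j) hac (by rw [norm_star]; exact hs k)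
    refine (norm_sub_le _ _).trans ?_
    refine (add_le_add (norm_sub_le _ _) le_rfl).trans ?_
    linarith
  obtain ⟨Er, hEr⟩ : ∃ Er : I → I → A → A, ∀ j k a, Er j k a
      = Q * (s j * a * star (s k)) - s j * a * star (s k) * P
        - s j * (a * (Ψ j - Φ k)) * star (s k) := ⟨_, fun _ _ _ => rfl⟩
  have hErn : ∀ j k a, ‖a‖ ≤ 1 → ‖a * Ψ j - Ψ j * a‖ ≤ θ → ‖Er j k a‖ ≤ 8 * θ := by
    intro j k a h1 h2
    rw [hEr]
    exact hE j k a h1 h2
  have hB : ∀ j k a, Q * (s j * a * star (s k)) - s j * a * star (s k) * P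
      = s j * (a * (Ψ j - Φ k)) * star (s k) + Er j k a := by
    intro j k a
    rw [hEr]
    abel
  have hmain : Q * asmU ρ₁ ρ₂ s c w - asmU ρ₁ ρ₂ s c w * P
      = ((Q - P) - ∑ k, s k * ((w * w) * (Ψ k - Φ k)) * star (s k))
        - ∑ k, s (ρ₁ (ρ₂ k)) * ((w * w) * (Ψ (ρ₁ (ρ₂ k)) - Φ k)) * star (s k)
        - Complex.I • ∑ k, s (ρ₁ k) * ((c * w) * (Ψ (ρ₁ k) - Φ k)) * star (s k)
        - Complex.I • ∑ k, s (ρ₂ k) * ((c * w) * (Ψ (ρ₂ k) - Φ k)) * star (s k)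
        - ∑ k, (Er k k (w * w) + Er (ρ₁ (ρ₂ k)) k (w * w))
        - Complex.I • ∑ k, (Er (ρ₁ k) k (c * w) + Er (ρ₂ k) k (c * w)) := by
    have h1 : Q * (∑ k, (s k * (w * w) * star (s k)
        + s (ρ₁ (ρ₂ k)) * (w * w) * star (s k)))
        - (∑ k, (s k * (w * w) * star (s k)
        + s (ρ₁ (ρ₂ k)) * (w * w) * star (s k))) * P
        = ∑ k, s k * ((w * w) * (Ψ k - Φ k)) * star (s k)
          + ∑ k, s (ρ₁ (ρ₂ k)) * ((w * w) * (Ψ (ρ₁ (ρ₂ k)) - Φ k)) * star (s k)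
          + ∑ k, (Er k k (w * w) + Er (ρ₁ (ρ₂ k)) k (w * w)) := by
      rw [Finset.mul_sum, Finset.sum_mul, ← Finset.sum_sub_distrib, ← Finset.sum_add_distrib,
        ← Finset.sum_add_distrib]
      refine Finset.sum_congr rfl (fun k _ => ?_)
      have h2 := hB k k (w * w)
      have h3 := hB (ρ₁ (ρ₂ k)) k (w * w)
      calc Q * (s k * (w * w) * star (s k) + s (ρ₁ (ρ₂ k)) * (w * w) * star (s k))
            - (s k * (w * w) * star (s k) + s (ρ₁ (ρ₂ k)) * (w * w) * star (s k)) * P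
          = (Q * (s k * (w * w) * star (s k)) - s k * (w * w) * star (s k) * P)
            + (Q * (s (ρ₁ (ρ₂ k)) * (w * w) * star (s k))
              - s (ρ₁ (ρ₂ k)) * (w * w) * star (s k) * P) := by noncomm_ring
        _ = _ := by rw [h2, h3]; abel
    have h1' : Q * (∑ k, (s (ρ₁ k) * (c * w) * star (s k)
        + s (ρ₂ k) * (c * w) * star (s k)))
        - (∑ k, (s (ρ₁ k) * (c * w) * star (s k)
        + s (ρ₂ k) * (c * w) * star (s k))) * P
        = ∑ k, s (ρ₁ k) * ((c * w) * (Ψ (ρ₁ k) - Φ k)) * star (s k)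
          + ∑ k, s (ρ₂ k) * ((c * w) * (Ψ (ρ₂ k) - Φ k)) * star (s k)
          + ∑ k, (Er (ρ₁ k) k (c * w) + Er (ρ₂ k) k (c * w)) := by
      rw [Finset.mul_sum, Finset.sum_mul, ← Finset.sum_sub_distrib, ← Finset.sum_add_distrib,
        ← Finset.sum_add_distrib]
      refine Finset.sum_congr rfl (fun k _ => ?_)
      have h2 := hB (ρ₁ k) k (c * w)
      have h3 := hB (ρ₂ k) k (c * w)
      calc Q * (s (ρ₁ k) * (c * w) * star (s k) + s (ρ₂ k) * (c * w) * star (s k))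
            - (s (ρ₁ k) * (c * w) * star (s k) + s (ρ₂ k) * (c * w) * star (s k)) * P
          = (Q * (s (ρ₁ k) * (c * w) * star (s k)) - s (ρ₁ k) * (c * w) * star (s k) * P)
            + (Q * (s (ρ₂ k) * (c * w) * star (s k))
              - s (ρ₂ k) * (c * w) * star (s k) * P) := by noncomm_ring
        _ = _ := by rw [h2, h3]; abel
    have h4 : Q * asmU ρ₁ ρ₂ s c w - asmU ρ₁ ρ₂ s c w * P
        = (Q - P) - (Q * (∑ k, (s k * (w * w) * star (s k)
        + s (ρ₁ (ρ₂ k)) * (w * w) * star (s k)))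
        - (∑ k, (s k * (w * w) * star (s k)
        + s (ρ₁ (ρ₂ k)) * (w * w) * star (s k))) * P)
        - Complex.I • (Q * (∑ k, (s (ρ₁ k) * (c * w) * star (s k)
        + s (ρ₂ k) * (c * w) * star (s k)))
        - (∑ k, (s (ρ₁ k) * (c * w) * star (s k)
        + s (ρ₂ k) * (c * w) * star (s k))) * P) := by
      unfold asmU
      rw [mul_sub, mul_sub, sub_mul, sub_mul, mul_one, one_mul, mul_smul_comm, smul_mul_assoc,
        smul_sub]
      abel
    rw [h4, h1, h1', smul_add, smul_add]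
    abel
  rw [hmain]
  -- bounds
  have hI : ∀ x : A, ‖Complex.I • x‖ = ‖x‖ := fun x => by rw [norm_smul, Complex.norm_I, one_mul]
  have B1 : ‖(Q - P) - ∑ k, s k * ((w * w) * (Ψ k - Φ k)) * star (s k)‖ ≤ 2 * θ := by
    have h1 : ∑ k, s k * ((w * w) * (Ψ k - Φ k)) * star (s k)
        = s o * ((w * w) * (Q - P)) * s o := by
      rw [Finset.sum_eq_single o]
      · rw [hΨo, hΦo, hso.star_eq]
      · intro k _ hk
        rw [hΨΦ k hk, sub_self, mul_zero, mul_zero, zero_mul]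
      · intro h
        exact absurd (Finset.mem_univ o) h
    rw [h1]
    have h2 : (Q - P) - s o * ((w * w) * (Q - P)) * s o
        = ((Q - P) - s o * (Q - P) * s o) + s o * ((Q - P) - (w * w) * (Q - P)) * s o := by
      noncomm_ring
    rw [h2]
    refine (norm_add_le _ _).trans ?_
    have h3 : ‖s o * ((Q - P) - (w * w) * (Q - P)) * s o‖ ≤ 1 * θ * 1 :=
      norm_mul3_le _ _ _ _ _ _ zero_le_one hθ hson hd2 hson
    linarith
  have B2 : ‖∑ k, s (ρ₁ (ρ₂ k)) * ((w * w) * (Ψ (ρ₁ (ρ₂ k)) - Φ k)) * star (s k)‖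
      ≤ 5 * ω := by
    have := hNOR A I s (fun k => (w * w) * (Ψ (ρ₁ (ρ₂ k)) - Φ k)) (ρ₂.trans ρ₁) ω θ hω hs hst
      (by
        intro k
        refine (norm_mul_le _ _).trans ?_
        calc ‖w * w‖ * ‖Ψ (ρ₁ (ρ₂ k)) - Φ k‖ ≤ 1 * ω :=
              mul_le_mul hwwn (hπ k) (norm_nonneg _) zero_le_one
          _ = ω := one_mul _) hn
    simpa only [Equiv.trans_apply] using this
  have B3 : ‖Complex.I • ∑ k, s (ρ₁ k) * ((c * w) * (Ψ (ρ₁ k) - Φ k)) * star (s k)‖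
      ≤ 5 * ω + (Fintype.card I : ℝ) * (4 * θ) := by
    rw [hI]
    have h1 : ∑ k, s (ρ₁ k) * ((c * w) * (Ψ (ρ₁ k) - Φ k)) * star (s k)
        = ∑ k, s (ρ₁ k) * ((c * w) * W k) * star (s k)
          + ∑ k, s (ρ₁ k) * (w * (c * (Ψ (ρ₁ k) - Φ k - W k))) * star (s k) := by
      rw [← Finset.sum_add_distrib]
      refine Finset.sum_congr rfl (fun k _ => ?_)
      rw [← mul_assoc w c, ← hcw]
      noncomm_ring
    rw [h1]
    refine (norm_add_le _ _).trans (add_le_add ?_ ?_)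
    · exact hNOR A I s (fun k => (c * w) * W k) ρ₁ ω θ hω hs hst
        (by
          intro k
          refine (norm_mul_le _ _).trans ?_
          calc ‖c * w‖ * ‖W k‖ ≤ 1 * ω :=
                mul_le_mul hcwn (hW k) (norm_nonneg _) zero_le_one
            _ = ω := one_mul _) hn
    · refine sum_norm_bound _ _ (fun k => ?_)
      have h2 : ‖w * (c * (Ψ (ρ₁ k) - Φ k - W k))‖ ≤ θ := by
        refine (norm_mul_le _ _).trans ?_
        calc ‖w‖ * ‖c * (Ψ (ρ₁ k) - Φ k - W k)‖ ≤ 1 * θ :=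
              mul_le_mul hwn (hρ1 k) (norm_nonneg _) zero_le_one
          _ = θ := one_mul _
      have := norm_mul3_le _ _ _ _ _ _ zero_le_two hθ (hs (ρ₁ k)) h2
        (show ‖star (s k)‖ ≤ 2 by rw [norm_star]; exact hs k)
      linarith
  have B4 : ‖Complex.I • ∑ k, s (ρ₂ k) * ((c * w) * (Ψ (ρ₂ k) - Φ k)) * star (s k)‖
      ≤ (Fintype.card I : ℝ) * (4 * θ) := by
    rw [hI]
    refine sum_norm_bound _ _ (fun k => ?_)
    have h2 : ‖(c * w) * (Ψ (ρ₂ k) - Φ k)‖ ≤ θ := by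
      rw [hcw, mul_assoc]
      refine (norm_mul_le _ _).trans ?_
      calc ‖w‖ * ‖c * (Ψ (ρ₂ k) - Φ k)‖ ≤ 1 * θ :=
            mul_le_mul hwn (hρ2 k) (norm_nonneg _) zero_le_one
        _ = θ := one_mul _
    have := norm_mul3_le _ _ _ _ _ _ zero_le_two hθ (hs (ρ₂ k)) h2
      (show ‖star (s k)‖ ≤ 2 by rw [norm_star]; exact hs k)
    linarith
  have B5 : ‖∑ k, (Er k k (w * w) + Er (ρ₁ (ρ₂ k)) k (w * w))‖
      ≤ (Fintype.card I : ℝ) * (16 * θ) := by
    refine sum_norm_bound _ _ (fun k => ?_)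
    refine (norm_add_le _ _).trans ?_
    linarith [hErn k k (w * w) hwwn (hcomm1 k),
      hErn (ρ₁ (ρ₂ k)) k (w * w) hwwn (hcomm1 _)]
  have B6 : ‖Complex.I • ∑ k, (Er (ρ₁ k) k (c * w) + Er (ρ₂ k) k (c * w))‖
      ≤ (Fintype.card I : ℝ) * (16 * θ) := by
    rw [hI]
    refine sum_norm_bound _ _ (fun k => ?_)
    refine (norm_add_le _ _).trans ?_
    linarith [hErn (ρ₁ k) k (c * w) hcwn (hcomm2 _),
      hErn (ρ₂ k) k (c * w) hcwn (hcomm2 _)]
  have tri : ∀ x1 x2 x3 x4 x5 x6 : A, ‖x1 - x2 - x3 - x4 - x5 - x6‖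
      ≤ ‖x1‖ + ‖x2‖ + ‖x3‖ + ‖x4‖ + ‖x5‖ + ‖x6‖ := by
    intro x1 x2 x3 x4 x5 x6
    linarith [norm_sub_le (x1 - x2 - x3 - x4 - x5) x6, norm_sub_le (x1 - x2 - x3 - x4) x5,
      norm_sub_le (x1 - x2 - x3) x4, norm_sub_le (x1 - x2) x3, norm_sub_le x1 x2]
  refine (tri _ _ _ _ _ _).trans ?_
  have hlast : 2 * θ ≤ (Fintype.card I : ℝ) * (2 * θ) := by nlinarith
  nlinarith

end Pool.Agent.Helper44.FP
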