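import Mathlib

namespace Pool.Agent.Helper44.FP

open scoped Topology

/-- `t` is the real part of a tracial state of the unital C*-algebra `A`. -/
structure IsTr {A : Type*} [CStarAlgebra A] (t : A → ℝ) : Prop where
  add : ∀ a b : A, t (a + b) = t a + t b
  smul : ∀ (r : ℝ) (a : A), t (r • a) = r * t a
  one : t 1 = 1
  comm : ∀ a b : A, t (a * b) = t (b * a)
  nonneg : ∀ a : A, 0 ≤ t (star a * a)
  star_eq : ∀ a : A, t (star a) = t a

/-- Weak comparison: a positive contraction of small trace is, up to a small norm error,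
of the form `R* c R` with `R` of controlled norm, for each positive contraction `c` of large trace. -/
def WC {A : Type*} [CStarAlgebra A] [PartialOrder A] (t : A → ℝ) : Prop :=
  ∀ ε : ℝ, 0 < ε → ∀ δ : ℝ, 0 < δ → ∃ θ : ℝ, 0 < θ ∧ ∃ K : ℝ, 0 ≤ K ∧ ∀ b c : A,
    0 ≤ b → b ≤ 1 → 0 ≤ c → c ≤ 1 → t b ≤ θ → δ ≤ t c →
      ∃ R : A, ‖R‖ ≤ K ∧ ‖star R * c * R - b‖ ≤ ε

/-- Averaging property: finite convex combinations of `t (w x w* y)` approximate `t x * t y`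
simultaneously for `x, y` in a finite set of self-adjoint elements. -/
def MixAv {A : Type*} [CStarAlgebra A] (t : A → ℝ) : Prop :=
  ∀ (S : Finset A), (∀ x ∈ S, IsSelfAdjoint x) → ∀ κ : ℝ, 0 < κ →
    ∃ (n : ℕ) (w : Fin n → A) (l : Fin n → ℝ), (∀ i, w i ∈ unitary A) ∧ (∀ i, 0 ≤ l i) ∧
      ∑ i, l i = 1 ∧
      ∀ x ∈ S, ∀ y ∈ S, |∑ i, l i * t (w i * x * star (w i) * y) - t x * t y| ≤ κ

/-- Norm approximate unitary equivalence of two real homomorphisms. -/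
def NormEq {A : Type*} [CStarAlgebra A] {X : Type*} [TopologicalSpace X] [CompactSpace X]
    (φ ψ : C(X, ℝ) →⋆ₐ[ℝ] A) : Prop :=
  ∀ (F : Finset C(X, ℝ)) (ε : ℝ), 0 < ε → ∃ u ∈ unitary A, ∀ f ∈ F, ‖u * φ f * star u - ψ f‖ ≤ ε

/-- Approximate unitary equivalence in the 2-norm of the trace `t`. -/
def TwoEq {A : Type*} [CStarAlgebra A] (t : A → ℝ) {X : Type*} [TopologicalSpace X] [CompactSpace X]
    (φ ψ : C(X, ℝ) →⋆ₐ[ℝ] A) : Prop :=
  ∀ (F : Finset C(X, ℝ)) (ε : ℝ), 0 < ε → ∃ u ∈ unitary A, ∀ f ∈ F,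
    t (star (u * φ f * star u - ψ f) * (u * φ f * star u - ψ f)) ≤ ε

/-- The element `1 + ∑ s_j m_{jk} s_k*` of the assembly step. -/
noncomputable def asmU {A : Type*} [CStarAlgebra A] {I : Type*} [Fintype I]
    (ρ₁ ρ₂ : Equiv.Perm I) (s : I → A) (c v : A) : A :=
  1 - ∑ k, (s k * (v * v) * star (s k) + s (ρ₁ (ρ₂ k)) * (v * v) * star (s k))
    - Complex.I • ∑ k, (s (ρ₁ k) * (c * v) * star (s k) + s (ρ₂ k) * (c * v) * star (s k))

end Pool.Agent.Helper44.FP
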