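import Pool.Agent.Helper44.FP.Defs

namespace Pool.Agent.Helper44.FP

open scoped Topology

/-- A tracial state on a unital C*-algebra. -/
structure IsTracialState {A : Type*} [CStarAlgebra A] (τ : A →ₗ[ℂ] ℂ) : Prop where
  map_one : τ 1 = 1
  nonneg : ∀ a : A, 0 ≤ (τ (star a * a)).re ∧ (τ (star a * a)).im = 0
  comm : ∀ a b : A, τ (a * b) = τ (b * a)

/-- `a` is a positive element, i.e. of the form `x* x`. -/
def IsPos {A : Type*} [CStarAlgebra A] (a : A) : Prop := ∃ x : A, a = star x * x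

/-- The dimension function `d_τ(a) = lim τ(a^{1/m})`. -/
noncomputable def dimTau {A : Type*} [CStarAlgebra A] (τ : A →ₗ[ℂ] ℂ) (a : A) : ℝ :=
  Filter.limUnder Filter.atTop (fun m : ℕ => (τ (cfc (fun x : ℝ => x ^ ((1 : ℝ) / (m + 1))) a)).re)

/-- Cuntz subequivalence: `a` is a limit of elements `r* b r`. -/
def CuntzLE {A : Type*} [CStarAlgebra A] (a b : A) : Prop :=
  ∀ ε : ℝ, 0 < ε → ∃ r : A, ‖star r * b * r - a‖ < ε

/-- Approximate unitary equivalence. -/
def ApproxUnitaryEquiv {A : Type*} [CStarAlgebra A] {X : Type*} [TopologicalSpace X]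
    [CompactSpace X] (φ ψ : C(X, ℂ) →⋆ₐ[ℂ] A) : Prop :=
  ∀ (F : Finset C(X, ℂ)) (ε : ℝ), 0 < ε → ∃ u ∈ unitary A, ∀ f ∈ F, ‖u * φ f * star u - ψ f‖ < ε

/-- `(D, τ)` together with the embeddings `ι k` is the reduced free product of countably many
copies of `C([0,1])` with respect to Lebesgue measure, described by its characterising properties:
`τ` is a tracial state inducing Lebesgue measure on each copy, the copies are free and generate `D`,
and the GNS representation of `τ` is faithful. -/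
structure IsFreePower (D : Type*) [CStarAlgebra D] (τ : D →ₗ[ℂ] ℂ)
    (ι : ℕ → (C(unitInterval, ℂ) →⋆ₐ[ℂ] D)) : Prop where
  tracial : IsTracialState τ
  law : ∀ (k : ℕ) (f : C(unitInterval, ℂ)), τ (ι k f) = ∫ x, f x
  free : ∀ L : List (ℕ × C(unitInterval, ℂ)), L ≠ [] → L.IsChain (fun a b => a.1 ≠ b.1) →
    (∀ a ∈ L, ∫ x, a.2 x = 0) → τ ((L.map (fun a => ι a.1 a.2)).prod) = 0
  generates : Dense ((StarAlgebra.adjoin ℂ (⋃ k, Set.range (ι k)) : StarSubalgebra ℂ D) : Set D)
  gns_faithful : ∀ a : D, (∀ b c : D, τ (b * a * c) = 0) → a = 0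

/-- The restriction of a complex homomorphism to real functions. -/
noncomputable def realHom {A : Type*} [CStarAlgebra A] {X : Type*} [TopologicalSpace X]
    [CompactSpace X] (φ : C(X, ℂ) →⋆ₐ[ℂ] A) : C(X, ℝ) →⋆ₐ[ℝ] A where
  toFun f := φ ⟨fun x => (f x : ℂ), by fun_prop⟩
  map_one' := by
    rw [← map_one φ]
    congr 1
  map_mul' f g := by
    rw [← map_mul φ]
    congr 1
    ext x
    simp
  map_zero' := by
    rw [← map_zero φ]
    congr 1
  map_add' f g := by
    rw [← map_add φ]
    congr 1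
    ext x
    simp
  commutes' r := by
    have h : (algebraMap ℝ A r) = algebraMap ℂ A (r : ℂ) := by
      rw [Algebra.algebraMap_eq_smul_one, Algebra.algebraMap_eq_smul_one]
      simp
    rw [h, ← AlgHomClass.commutes φ (r : ℂ)]
    congr 1
  map_star' f := by
    rw [← map_star φ]
    congr 1
    ext x
    simp

end Pool.Agent.Helper44.FP
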