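import Pool.Agent.Helper44.FP.Asm
import Pool.Agent.Helper63.FP.CYC
import Pool.Agent.Helper63.FP.FAITH
import Pool.Agent.Helper64.FP.BUMP
import Pool.Agent.Helper77.FP.COMM
import Pool.Agent.Helper77.FP.CUT
import Pool.Agent.Helper77.FP.POLAR
import Pool.Agent.Helper77.FP.WCD
import Pool.Agent.Helper81.FP.VARA
import Pool.Agent.Helper81.FP.VARC

namespace Pool.Agent.Helper44.FP

universe u v

theorem CORE_fin (hEE : ST_EE.{u, v}) (hCOMB : ST_COMB.{v}) : ST_CORE.{u, v} := by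
  have hCH : ST_CHAIN.{u, v} := CHAIN_aux
    (Pool.Agent.Helper78.FP.ABS_aux Pool.Agent.Helper79.FP.PART_proof
      Pool.Agent.Helper64.FP.BUMP_proof)
    INT_proof (Pool.Agent.Helper77.FP.CUT_aux Pool.Agent.Helper77.FP.COMM_proof)
    Pool.Agent.Helper63.FP.CYC_proof ASMU_proof (ASMI_aux NOR_proof)
    Pool.Agent.Helper77.FP.POLAR_proof
  exact Pool.Agent.Helper78.FP.CORE_aux Pool.Agent.Helper96.FP.BRIDGE_proof (U_aux hEE hCH)
    (Pool.Agent.Helper81.FP.VARC_aux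
      (Pool.Agent.Helper81.FP.VARB_aux Pool.Agent.Helper81.FP.VARA_proof) hCOMB)

theorem Q2_fin (hEE : ST_EE.{u, v}) (hCOMB : ST_COMB.{v}) : ST_Q2.{u, v} :=
  Q2_aux (CORE_fin hEE hCOMB) Pool.Agent.Helper63.FP.FAITH_proof
    Pool.Agent.Helper96.FP.BRIDGE_proof
    (Pool.Agent.Helper78.FP.WCS_aux Pool.Agent.Helper96.FP.BRIDGE_proof)
    Pool.Agent.Helper37.FP.UNIQ_proof

theorem Q1_fin (hEE : ST_EE.{u, v}) (hCOMB : ST_COMB.{v}) : ST_Q1.{u, v} :=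
  Q1_aux (CORE_fin hEE hCOMB) Pool.Agent.Helper96.FP.BRIDGE_proof
    Pool.Agent.Helper77.FP.WCD_proof
    (Pool.Agent.Helper79.FP.FN_aux Pool.Agent.Helper96.FP.FW_proof
      Pool.Agent.Helper79.FP.GNSN_proof)
    Pool.Agent.Helper96.FP.MIXD_proof

end Pool.Agent.Helper44.FP
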