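import Pool.Agent.Helper44.FP.Stmts
import Pool.Agent.Helper44.FP.Lib

namespace Pool.Agent.Helper44.FP

open scoped Topology

universe u v

theorem double_sum_bound {A : Type u} [NormedRing A] {I : Type} [Fintype I]
    [DecidableEq I] (G : I → I → A) (c : ℝ) (hc : 0 ≤ c) (h : ∀ j k, j ≠ k → ‖G j k‖ ≤ c) :
    ‖∑ j, ∑ k, G j k‖ ≤ ‖∑ k, G k k‖ + (Fintype.card I : ℝ) ^ 2 * c := by
  have h1 : ∀ j, ∑ k, G j k = G j j + ∑ k, (if j = k then 0 else G j k) := by
    intro j
    have h2 : ∀ k, G j k = (if j = k then G j k else 0) + (if j = k then 0 else G j k) := by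
      intro k
      split_ifs <;> simp
    calc ∑ k, G j k = ∑ k, ((if j = k then G j k else 0) + (if j = k then 0 else G j k)) :=
          Finset.sum_congr rfl (fun k _ => h2 k)
      _ = G j j + ∑ k, (if j = k then 0 else G j k) := by
          rw [Finset.sum_add_distrib]
          simp
  rw [Finset.sum_congr rfl (fun j _ => h1 j), Finset.sum_add_distrib]
  refine (norm_add_le _ _).trans ?_
  gcongr
  calc ‖∑ j, ∑ k, (if j = k then (0 : A) else G j k)‖
      ≤ ∑ j : I, ∑ k : I, c := by
        refine (norm_sum_le _ _).trans (Finset.sum_le_sum (fun j _ => ?_))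
        refine (norm_sum_le _ _).trans (Finset.sum_le_sum (fun k _ => ?_))
        split_ifs with hjk
        · simpa using hc
        · exact h j k hjk
    _ = (Fintype.card I : ℝ) ^ 2 * c := by
        simp
        ring

theorem conj_sum_bound {A : Type u} [CStarAlgebra A] [PartialOrder A] [StarOrderedRing A]
    {I : Type} [Fintype I] (s x : I → A) (c : ℝ) (hc : 0 ≤ c)
    (hx0 : ∀ k, 0 ≤ x k) (hx1 : ∀ k, x k ≤ algebraMap ℝ A c) :
    ‖∑ k, s k * x k * star (s k)‖ ≤ c * ‖∑ k, s k * star (s k)‖ := by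
  have h1 : ∑ k, s k * x k * star (s k) ≤ c • ∑ k, s k * star (s k) := by
    rw [Finset.smul_sum]
    refine Finset.sum_le_sum (fun k _ => ?_)
    have := star_right_conjugate_le_conjugate (hx1 k) (s k)
    refine this.trans (le_of_eq ?_)
    rw [Algebra.algebraMap_eq_smul_one]
    simp
  have h0 : 0 ≤ ∑ k, s k * x k * star (s k) :=
    Finset.sum_nonneg (fun k _ => star_right_conjugate_nonneg (hx0 k) (s k))
  refine (CStarAlgebra.norm_le_norm_of_nonneg_of_le h0 h1).trans ?_
  rw [norm_smul, Real.norm_of_nonneg hc]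

theorem NOR_proof : ST_NOR.{u} := by
  intro A _ _ _ I _ _ s a ρ ω θ₀ hω hs hst₀ ha hn₀
  obtain ⟨θ, hθ, hst, hn⟩ : ∃ θ : ℝ, 0 ≤ θ ∧ (∀ j k, j ≠ k → ‖star (s j) * s k‖ ≤ θ) ∧
      (Fintype.card I : ℝ) ^ 2 * θ ≤ 1 := by
    refine ⟨max θ₀ 0, le_max_right _ _, fun j k hjk => (hst₀ j k hjk).trans (le_max_left _ _), ?_⟩
    rcases max_choice θ₀ 0 with h | h <;> rw [h]
    · exact hn₀
    · simp
  have hss : ∀ k, star (s k) * s k ≤ algebraMap ℝ A 4 := by
    intro k
    refine (CStarAlgebra.star_mul_le_algebraMap_norm_sq (a := s k)).trans ?_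
    apply algebraMap_mono
    have := norm_nonneg (s k)
    nlinarith [hs k]
  obtain ⟨W, hW⟩ : ∃ W : A, W = ∑ k, s k * star (s k) := ⟨_, rfl⟩
  have hWsa : IsSelfAdjoint W := by
    rw [hW]
    apply isSelfAdjoint_sum
    intro k _
    exact IsSelfAdjoint.mul_star_self (s k)
  have hWW : W * W = ∑ j, ∑ k, s j * star (s j) * (s k * star (s k)) := by
    rw [hW, Finset.sum_mul_sum]
  have hr : ‖W‖ ≤ 5 := by
    have h1 : ‖W‖ ^ 2 ≤ 4 * ‖W‖ + (Fintype.card I : ℝ) ^ 2 * (4 * θ) := by
      rw [← hWsa.norm_mul_self, hWW]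
      refine (double_sum_bound _ (4 * θ) (by linarith) ?_).trans ?_
      · intro j k hjk
        have e : s j * star (s j) * (s k * star (s k)) = s j * (star (s j) * s k) * star (s k) := by
          noncomm_ring
        rw [e]
        refine (norm_mul_le _ _).trans ?_
        rw [norm_star]
        have h2 : ‖s j * (star (s j) * s k)‖ ≤ 2 * θ :=
          (norm_mul_le _ _).trans (mul_le_mul (hs j) (hst j k hjk) (norm_nonneg _) zero_le_two)
        calc ‖s j * (star (s j) * s k)‖ * ‖s k‖ ≤ 2 * θ * 2 :=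
              mul_le_mul h2 (hs k) (norm_nonneg _) (by linarith)
          _ = 4 * θ := by ring
      · have h3 : ∑ k, s k * star (s k) * (s k * star (s k))
            = ∑ k, s k * (star (s k) * s k) * star (s k) :=
          Finset.sum_congr rfl (fun k _ => by noncomm_ring)
        rw [h3]
        have h4 := conj_sum_bound s (fun k => star (s k) * s k) 4 (by norm_num)
          (fun k => star_mul_self_nonneg (s k)) hss
        rw [← hW] at h4
        linarith
    nlinarith [norm_nonneg W]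
  obtain ⟨V, hV⟩ : ∃ V : A, V = ∑ k, s (ρ k) * a k * star (s k) := ⟨_, rfl⟩
  rw [← hV]
  have hVV : star V * V = ∑ j, ∑ k, (s j * star (a j) * star (s (ρ j))) *
      (s (ρ k) * a k * star (s k)) := by
    rw [hV, star_sum, Finset.sum_mul_sum]
    simp only [star_mul, star_star, mul_assoc]
  have h1 : ‖V‖ ^ 2 ≤ 24 * ω ^ 2 := by
    rw [sq, ← CStarRing.norm_star_mul_self, hVV]
    refine (double_sum_bound _ (4 * (ω ^ 2 * θ)) (by positivity) ?_).trans ?_
    · intro j k hjk
      have e : (s j * star (a j) * star (s (ρ j))) * (s (ρ k) * a k * star (s k))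
          = s j * (star (a j) * (star (s (ρ j)) * s (ρ k)) * a k) * star (s k) := by
        noncomm_ring
      rw [e]
      have hρ : ρ j ≠ ρ k := fun h => hjk (ρ.injective h)
      have e1 : ‖star (a j) * (star (s (ρ j)) * s (ρ k))‖ ≤ ω * θ :=
        (norm_mul_le _ _).trans (mul_le_mul (by rw [norm_star]; exact ha j) (hst _ _ hρ)
          (norm_nonneg _) hω)
      have e2 : ‖star (a j) * (star (s (ρ j)) * s (ρ k)) * a k‖ ≤ ω * θ * ω :=
        (norm_mul_le _ _).trans (mul_le_mul e1 (ha k) (norm_nonneg _) (by positivity))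
      have e3 : ‖s j * (star (a j) * (star (s (ρ j)) * s (ρ k)) * a k)‖ ≤ 2 * (ω * θ * ω) :=
        (norm_mul_le _ _).trans (mul_le_mul (hs j) e2 (norm_nonneg _) zero_le_two)
      refine (norm_mul_le _ _).trans ?_
      rw [norm_star]
      calc ‖s j * (star (a j) * (star (s (ρ j)) * s (ρ k)) * a k)‖ * ‖s k‖
          ≤ 2 * (ω * θ * ω) * 2 := mul_le_mul e3 (hs k) (norm_nonneg _) (by positivity)
        _ = 4 * (ω ^ 2 * θ) := by ring
    · have h3 : ∑ k, (s k * star (a k) * star (s (ρ k))) * (s (ρ k) * a k * star (s k))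
          = ∑ k, s k * (star (s (ρ k) * a k) * (s (ρ k) * a k)) * star (s k) := by
        refine Finset.sum_congr rfl (fun k _ => ?_)
        rw [star_mul]
        noncomm_ring
      rw [h3]
      have h4 := conj_sum_bound s (fun k => star (s (ρ k) * a k) * (s (ρ k) * a k)) (4 * ω ^ 2)
        (by positivity) (fun k => star_mul_self_nonneg _) (by
          intro k
          refine (CStarAlgebra.star_mul_le_algebraMap_norm_sq (a := s (ρ k) * a k)).trans ?_
          apply algebraMap_mono
          have h5 : ‖s (ρ k) * a k‖ ≤ 2 * ω :=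
            (norm_mul_le _ _).trans (mul_le_mul (hs _) (ha k) (norm_nonneg _) zero_le_two)
          have := norm_nonneg (s (ρ k) * a k)
          nlinarith)
      rw [← hW] at h4
      have h6 : 4 * ω ^ 2 * ‖W‖ ≤ 4 * ω ^ 2 * 5 := by gcongr
      have h7 : (Fintype.card I : ℝ) ^ 2 * (4 * (ω ^ 2 * θ)) ≤ 4 * ω ^ 2 := by
        have : (Fintype.card I : ℝ) ^ 2 * (4 * (ω ^ 2 * θ))
          = 4 * ω ^ 2 * ((Fintype.card I : ℝ) ^ 2 * θ) := by ring
        rw [this]
        nlinarith [sq_nonneg ω]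
      linarith
  have h2 : ‖V‖ ^ 2 ≤ (5 * ω) ^ 2 := by nlinarith [sq_nonneg ω]
  exact le_of_sq_le_sq h2 (by positivity)

end Pool.Agent.Helper44.FP
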