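import Pool.Agent.Helper44.FP.Final
import Pool.Agent.Helper77.FP.COMB
import Pool.Agent.Helper81.FP.EE
import Pool.Agent.Helper81.FP.ROW

namespace Pool.Agent.Helper44.FP

universe u v

theorem Q2_solved : ST_Q2.{u, v} :=
  Q2_fin (Pool.Agent.Helper81.FP.EE_aux Pool.Agent.Helper81.FP.ROW_proof
    Pool.Agent.Helper79.FP.PART_proof) Pool.Agent.Helper77.FP.COMB_proof

theorem Q1_solved : ST_Q1.{u, v} :=
  Q1_fin (Pool.Agent.Helper81.FP.EE_aux Pool.Agent.Helper81.FP.ROW_proof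
    Pool.Agent.Helper79.FP.PART_proof) Pool.Agent.Helper77.FP.COMB_proof

end Pool.Agent.Helper44.FP
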